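import Pool.Agent.ETCE.R2b

/-!
# Isolated elements give prime functionals, arbitrary `-1` (helper16, ETC-16A)
-/

set_option autoImplicit false
set_option linter.unusedSimpArgs false
set_option linter.unusedVariables false
set_option linter.unusedSectionVars false

namespace Pool.Agent.ETCE

open Pool.Agent.Helper58.PLine (QData exists_functional add_self_add)
open Pool.Agent.ETCP

variable {V Q : Type} [AddCommGroup V] [Module (ZMod 2) V]

/-- `x` is isolated: commuting elements `u, v` outside `V_x` have `u + v` in `e + V_x`, or both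
lie in `e + V_x`. -/
def Iso (S : QData V Q) (x : V) : Prop := ∀ u v, C S u v → ¬ C S x u → ¬ C S x v →
  C S x (u + v + S.e) ∨ (C S x (u + S.e) ∧ C S x (v + S.e))

variable {S : QData V Q} {x : V}

theorem zv {a : ZMod 2} : a = 0 ∨ a = 1 := by revert a; decide

/-- two independent functionals which vanish on `V_x` and at `e` give a form of rank two. -/
theorem rk2_of_iso (hx : Iso S x) (f1 f2 : V →ₗ[ZMod 2] ZMod 2)
    (h1 : ∀ y, C S x y → f1 y = 0) (h2 : ∀ y, C S x y → f2 y = 0) (e1 : f1 S.e = 0)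
    (e2 : f2 S.e = 0)
    (ha : ∃ a, f1 a = 1 ∧ f2 a = 0) (hb : ∃ b, f2 b = 1) : Rk2 S (f1.prod f2) := by
  have pe : (f1.prod f2) S.e = 0 := by
    show (f1 S.e, f2 S.e) = 0
    rw [e1, e2]; rfl
  have p0 : ∀ y, C S x y → (f1.prod f2) y = 0 := by
    intro y hy
    show (f1 y, f2 y) = 0
    rw [h1 y hy, h2 y hy]; rfl
  refine ⟨pe, ?_, ?_⟩
  · obtain ⟨a, ha1, ha2⟩ := ha
    obtain ⟨b, hb2⟩ := hb
    have hb' : ∃ b, f1 b = 0 ∧ f2 b = 1 := by
      rcases (zv (a := f1 b)) with h | h
      · exact ⟨b, h, hb2⟩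
      · refine ⟨a + b, ?_, ?_⟩
        · rw [map_add, ha1, h]; decide
        · rw [map_add, ha2, hb2]; decide
    obtain ⟨b', hb1', hb2'⟩ := hb'
    rintro ⟨i, j⟩
    refine ⟨i • a + j • b', ?_⟩
    show (f1 (i • a + j • b'), f2 (i • a + j • b')) = (i, j)
    rw [map_add, map_add, map_smul, map_smul, map_smul, map_smul, ha1, ha2, hb1', hb2']
    simp
  · intro a b hab
    by_cases hxa : C S x a
    · rw [p0 a hxa, dl_zero]
    by_cases hxb : C S x b
    · rw [p0 b hxb, dl_comm, dl_zero]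
    rcases hx a b hab hxa hxb with h | ⟨h, -⟩
    · have := p0 _ h
      rw [map_add, map_add, pe, add_zero] at this
      rw [eo (V := E) this, dl_self]
    · have := p0 _ h
      rw [map_add, pe, add_zero] at this
      rw [this, dl_zero]

/-- `V_z + V_x` -/
def Nz (S : QData V Q) (x z : V) : Submodule (ZMod 2) V := S.ann z ⊔ S.ann x

theorem ann_le_Nz (z : V) : S.ann z ≤ Nz S x z := le_sup_left

theorem annx_le_Nz (z : V) : S.ann x ≤ Nz S x z := le_sup_right

theorem exists_of_not_le {z : V} {N : Submodule (ZMod 2) V} (hN : S.ann x ≤ N)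
    (h : ¬ Nz S x z ≤ N) : ∃ a, C S z a ∧ a ∉ N := by
  by_contra hc
  push Not at hc
  exact h (sup_le (fun a ha => hc a ha) hN)

theorem mem_sup_span {p : Submodule (ZMod 2) V} {u y : V}
    (h : y ∈ p ⊔ Submodule.span (ZMod 2) {u}) : y ∈ p ∨ y + u ∈ p := by
  obtain ⟨a, ha, v, hv, huv⟩ := Submodule.mem_sup.1 h
  obtain ⟨k, rfl⟩ := Submodule.mem_span_singleton.1 hv
  rcases (zv (a := k)) with rfl | rfl
  · rw [zero_smul, add_zero] at huv
    left; rw [← huv]; exact ha
  · rw [one_smul] at huv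
    right; rw [← huv, add_self_add]; exact ha

/-- the lemma of (ii): two functionals which kill `V_x`, the first kills `e`, the second not -/
theorem lemma_ii (hx : Iso S x) (τ ψ : V →ₗ[ZMod 2] ZMod 2) (h1 : ∀ y, C S x y → τ y = 0)
    (h2 : ∀ y, C S x y → ψ y = 0) (e1 : τ S.e = 0) (e2 : ψ S.e = 1) {z w2 : V}
    (z1 : τ z = 0) (z2 : ψ z = 0) (hw : C S z w2) (w1 : τ w2 = 1) (w2' : ψ w2 = 0) :
    ∃ y, C S z y ∧ ψ y = 1 := by
  -- commuting pairs
  have key : ∀ a b, C S a b → τ a = 1 → ψ a = 1 → ψ b = 0 := by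
    intro a b hab ha1 ha2
    have hxa : ¬ C S x a := fun h => by
      have := h1 a h
      rw [ha1] at this
      exact absurd this (by decide)
    by_cases hxb : C S x b
    · exact h2 b hxb
    rcases hx a b hab hxa hxb with h | ⟨h, -⟩
    · have k2 := h2 _ h
      rw [map_add, map_add, ha2, e2] at k2
      have f : ∀ t : ZMod 2, 1 + t + 1 = 0 → t = 0 := by decide
      exact f _ k2
    · have k1 := h1 _ h
      rw [map_add, ha1, e1] at k1
      exact absurd k1 (by decide)
  have e3 : S.q z S.e = S.q (S.e + w2) z := by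
    rw [S.symm (S.e + w2) z]
    exact q_eq (hw.of_eq rfl (eo (by abel_nf; simp [ch2, ch3, ch4])))
  obtain ⟨t, g1, g2, -⟩ := link e3
  have k := key _ _ g2 (by rw [map_add, e1, w1]; decide) (by rw [map_add, e2, w2']; decide)
  rw [map_add, z2, zero_add] at k
  exact ⟨S.e + t, g1, by rw [map_add, e2, k]; decide⟩

/-- (1): a nonzero `N_z` contains `e` -/
theorem e_mem_Nz (hx : Iso S x) {z : V} (hz : C S x z) {n : V} (hn : C S z n) (hnx : ¬ C S x n) :
    S.e ∈ Nz S x z := by
  by_contra he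
  obtain ⟨ψ, ψe, ψ0⟩ := exists_functional he
  have hn' : n ∉ S.ann x ⊔ Submodule.span (ZMod 2) {S.e} := by
    intro h
    rcases mem_sup_span h with h | h
    · exact hnx h
    · apply he
      have h1 : n + S.e ∈ Nz S x z := annx_le_Nz z h
      have h2 : n ∈ Nz S x z := ann_le_Nz z hn
      have := Submodule.add_mem _ h2 h1
      rwa [← add_assoc, ZModModule.add_self, zero_add] at this
  obtain ⟨τ, τn, τ0⟩ := exists_functional hn'
  have h1 : ∀ y, C S x y → τ y = 0 := fun y hy => τ0 y (Submodule.mem_sup_left hy)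
  have h2 : ∀ y, C S x y → ψ y = 0 := fun y hy => ψ0 y (annx_le_Nz z hy)
  obtain ⟨y, hy, hy1⟩ := lemma_ii hx τ ψ h1 h2
    (τ0 _ (Submodule.mem_sup_right (Submodule.mem_span_singleton_self _))) ψe (h1 z hz) (h2 z hz)
    hn τn (ψ0 n (ann_le_Nz z hn))
  rw [ψ0 y (ann_le_Nz z hy)] at hy1
  exact absurd hy1 (by decide)

/-- **the chain property** -/
theorem chain [Finite V] (hx : Iso S x) {z z' : V} (hz : C S x z) (hz' : C S x z') :
    Nz S x z ≤ Nz S x z' ∨ Nz S x z' ≤ Nz S x z := by
  by_contra hc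
  push Not at hc
  obtain ⟨a, ha, ha'⟩ := exists_of_not_le (annx_le_Nz z') hc.1
  obtain ⟨b, hb, hb'⟩ := exists_of_not_le (annx_le_Nz z) hc.2
  have ez : S.e ∈ Nz S x z := e_mem_Nz hx hz ha fun h => ha' (annx_le_Nz z' h)
  have ez' : S.e ∈ Nz S x z' := e_mem_Nz hx hz' hb fun h => hb' (annx_le_Nz z h)
  obtain ⟨f1, f1a, f10⟩ := exists_functional ha'
  obtain ⟨f2, f2b, f20⟩ := exists_functional hb'
  have hx1 : ∀ y, C S x y → f1 y = 0 := fun y hy => f10 y (annx_le_Nz z' hy)
  have hx2 : ∀ y, C S x y → f2 y = 0 := fun y hy => f20 y (annx_le_Nz z hy)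
  have f2a : f2 a = 0 := f20 a (ann_le_Nz z ha)
  have f1b : f1 b = 0 := f10 b (ann_le_Nz z' hb)
  have X := rk2_of_iso hx f1 f2 hx1 hx2 (f10 _ ez') (f20 _ ez) ⟨a, f1a, f2a⟩ ⟨b, f2b⟩
  have t1 : Ti S (f1.prod f2) ((1, 0) : E) z := by
    refine ⟨⟨?_, a, ?_, ha⟩, ?_⟩
    · show (f1 z, f2 z) = 0
      rw [hx1 z hz, hx2 z hz]; rfl
    · show (f1 a, f2 a) = (1, 0)
      rw [f1a, f2a]
    · rintro j hj0 hj1 ⟨-, w, hw, hcw⟩
      have e2 : f2 w = 0 := f20 w (ann_le_Nz z hcw)
      have e3 : (f1 w, f2 w) = j := hw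
      rw [e2] at e3
      rcases (zv (a := f1 w)) with h | h
      · rw [h] at e3; exact hj0 e3.symm
      · rw [h] at e3; exact hj1 e3.symm
  have t2 : Ti S (f1.prod f2) ((0, 1) : E) z' := by
    refine ⟨⟨?_, b, ?_, hb⟩, ?_⟩
    · show (f1 z', f2 z') = 0
      rw [hx1 z' hz', hx2 z' hz']; rfl
    · show (f1 b, f2 b) = (0, 1)
      rw [f1b, f2b]
    · rintro j hj0 hj1 ⟨-, w, hw, hcw⟩
      have e2 : f1 w = 0 := f10 w (ann_le_Nz z' hcw)
      have e3 : (f1 w, f2 w) = j := hw
      rw [e2] at e3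
      rcases (zv (a := f2 w)) with h | h
      · rw [h] at e3; exact hj0 e3.symm
      · rw [h] at e3; exact hj1 e3.symm
  exact X.R2 (i := (1, 0)) (j := (0, 1)) (by decide) (by decide) (by decide) t1 t2

/-- the quotient by `V_x` has dimension at least two -/
def Big (S : QData V Q) (x : V) : Prop := ∃ a b, ¬ C S x a ∧ ¬ C S x b ∧ ¬ C S x (a + b)

theorem Big.out (hr : Big S x) (w : V) : ∃ b, b ∉ S.ann x ⊔ Submodule.span (ZMod 2) {w} := by
  by_contra hb
  push Not at hb
  obtain ⟨a, b, h1, h2, h3⟩ := hr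
  have key : ∀ y, ¬ C S x y → C S x (y + w) := by
    intro y hy
    rcases mem_sup_span (hb y) with h | h
    · exact absurd h hy
    · exact h
  apply h3
  exact ((key a h1).add (key b h2)).of_eq rfl (eo (by abel_nf; simp [ch2, ch3, ch4]))

/-- `x + e` commutes with `x` -/
theorem xe : C S x (x + S.e) := S.diag x

/-- if `V_t + V_x = V` then `V_(x+t)` is contained in `V_x + {0, e}`. -/
theorem ann_add_le [Finite V] (hx : Iso S x) (hr : Big S x) {t : V} (ht : C S x t)
    (hN : Nz S x t = ⊤) {w : V} (hw : C S (x + t) w) : C S x w ∨ C S x (w + S.e) := by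
  by_contra hc
  push Not at hc
  by_cases he : C S x S.e
  · -- the case `e` in `V_x`
    have hxx : C S x x := ((xe (S := S) (x := x)).add he).of_eq rfl
      (eo (by abel_nf; simp [ch2, ch3, ch4]))
    obtain ⟨b, hb⟩ := hr.out w
    obtain ⟨f2, f2b, f20⟩ := exists_functional hb
    obtain ⟨f1, f1w, f10⟩ := exists_functional (p := S.ann x) hc.1
    have hx1 : ∀ y, C S x y → f1 y = 0 := fun y hy => f10 y hy
    have hx2 : ∀ y, C S x y → f2 y = 0 := fun y hy => f20 y (Submodule.mem_sup_left hy)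
    have f2w : f2 w = 0 := f20 w (Submodule.mem_sup_right (Submodule.mem_span_singleton_self w))
    have X := rk2_of_iso hx f1 f2 hx1 hx2 (hx1 _ he) (hx2 _ he) ⟨w, f1w, f2w⟩ ⟨b, f2b⟩
    have hT : t ∈ X.T := by
      intro i
      obtain ⟨v, hv⟩ := X.sur i
      have hvN : v ∈ Nz S x t := by rw [hN]; trivial
      obtain ⟨v1, hv1, v2, hv2, rfl⟩ := Submodule.mem_sup.1 hvN
      refine ⟨?_, v1, ?_, hv1⟩
      · show (f1 t, f2 t) = 0
        rw [hx1 t ht, hx2 t ht]; rfl
      · have : (f1.prod f2) v2 = 0 := by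
          show (f1 v2, f2 v2) = 0
          rw [hx1 v2 hv2, hx2 v2 hv2]; rfl
        rw [map_add, this, add_zero] at hv
        exact hv
    have h0 : ∀ w, C S x w → (f1.prod f2) w = 0 := by
      intro w hw
      show (f1 w, f2 w) = 0
      rw [hx1 w hw, hx2 w hw]; rfl
    have := X.T0_add (h0 x hxx) h0 hT w hw
    have h3 : (f1 w, f2 w) = (0 : E) := this
    have h4 : f1 w = 0 := congrArg Prod.fst h3
    rw [f1w] at h4
    exact absurd h4 (by decide)
  · -- the case `e` outside `V_x`
    have hxe := xe (S := S) (x := x)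
    have hxt : ¬ C S x (x + t) := by
      intro h
      apply he
      exact ((h.add ht).add hxe).of_eq rfl (eo (by abel_nf; simp [ch2, ch3, ch4]))
    rcases hx _ _ hw hxt hc.1 with h | ⟨-, h⟩
    · apply hc.1
      exact ((h.add ht).add hxe).of_eq rfl (eo (by abel_nf; simp [ch2, ch3, ch4]))
    · exact hc.2 h

/-- a proper submodule that contains `V_x`, `e` and all proper `N_z` -/
theorem exists_top [Finite V] (hx : Iso S x) (hr : Big S x) : ∃ M : Submodule (ZMod 2) V,
    M ≠ ⊤ ∧ S.ann x ≤ M ∧ S.e ∈ M ∧ ∀ z, C S x z → Nz S x z ≠ ⊤ → Nz S x z ≤ M := by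
  classical
  by_cases hall : ∀ z, C S x z → Nz S x z ≠ ⊤ → Nz S x z ≤ S.ann x ⊔ Submodule.span (ZMod 2) {S.e}
  · refine ⟨_, ?_, le_sup_left, Submodule.mem_sup_right (Submodule.mem_span_singleton_self _), hall⟩
    intro h
    obtain ⟨b, hb⟩ := hr.out S.e
    exact hb (h ▸ trivial)
  push Not at hall
  obtain ⟨z1, hz1, hz1t, hz1l⟩ := hall
  obtain ⟨z0, ⟨hz0, hz0top⟩, hmax⟩ : ∃ z0, (C S x z0 ∧ Nz S x z0 ≠ ⊤) ∧
      ∀ z, C S x z ∧ Nz S x z ≠ ⊤ →
        Module.finrank (ZMod 2) (Nz S x z) ≤ Module.finrank (ZMod 2) (Nz S x z0) := by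
    have hfin : {z : V | C S x z ∧ Nz S x z ≠ ⊤}.Finite := Set.toFinite _
    have hne : {z : V | C S x z ∧ Nz S x z ≠ ⊤}.Nonempty := ⟨z1, hz1, hz1t⟩
    obtain ⟨z0, h1, h2⟩ := hfin.exists_maximalFor
      (fun z => Module.finrank (ZMod 2) (Nz S x z)) _ hne
    refine ⟨z0, h1, fun z hz => ?_⟩
    by_contra hc
    push Not at hc
    exact absurd (h2 hz hc.le) (not_le.2 hc)
  have hprop : ∀ z, C S x z → Nz S x z ≠ ⊤ → Nz S x z ≤ Nz S x z0 := by
    intro z hz hzt
    rcases chain hx hz hz0 with h | h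
    · exact h
    · exact (Submodule.eq_of_le_of_finrank_le h (hmax z ⟨hz, hzt⟩)).ge
  refine ⟨_, hz0top, annx_le_Nz z0, ?_, hprop⟩
  obtain ⟨a, ha, ha'⟩ := exists_of_not_le le_sup_left hz1l
  exact hprop z1 hz1 hz1t (e_mem_Nz hx hz1 ha fun h => ha' (Submodule.mem_sup_left h))

/-- **Isolated elements give prime functionals.** -/
theorem prime_of_isolated [Finite V] (hx : Iso S x) (hr : Big S x) :
    ∃ φ : V →ₗ[ZMod 2] ZMod 2, φ ≠ 0 ∧ φ S.e = 0 ∧ (∀ y, C S x y → φ y = 0) ∧
      ∀ p p', (∃ v, C S p v ∧ φ v = 1) → (∃ v, C S p' v ∧ φ v = 1) →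
        (∃ v, C S (p + p') v ∧ φ v = 1) → ∃ v, C S p v ∧ C S p' v ∧ φ v = 1 := by
  classical
  obtain ⟨M, hMt, hMx, hMe, hM⟩ := exists_top hx hr
  obtain ⟨v0, hv0⟩ : ∃ v, v ∉ M := by
    by_contra hc
    push Not at hc
    exact hMt (eq_top_iff.2 fun v _ => hc v)
  obtain ⟨φ, hφ1, hφ0⟩ := exists_functional hv0
  have hφx : ∀ y, C S x y → φ y = 0 := fun y hy => hφ0 y (hMx hy)
  have hφe : φ S.e = 0 := hφ0 _ hMe
  have hφxe : ∀ y, C S x (y + S.e) → φ y = 0 := by
    intro y hy
    have := hφx _ hy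
    rwa [map_add, hφe, add_zero] at this
  have hφxx : φ x = 0 := hφxe x xe
  have hfull : ∀ t, C S x t → (∃ v, C S t v ∧ φ v = 1) → Nz S x t = ⊤ := by
    rintro t ht ⟨v, hv, hv1⟩
    by_contra hc
    have := hφ0 v (hM t ht hc (ann_le_Nz t hv))
    rw [hv1] at this
    exact absurd this (by decide)
  have hxe := xe (S := S) (x := x)
  -- values outside `V_x`
  have hout : ∀ p, ¬ C S x p → (∃ v, C S p v ∧ φ v = 1) → φ p = 1 := by
    rintro p hp ⟨v, hv, hv1⟩
    have hxv : ¬ C S x v := fun h => by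
      rw [hφx v h] at hv1; exact absurd hv1 (by decide)
    rcases hx p v hv hp hxv with h | ⟨-, h⟩
    · have := hφxe _ h
      rw [map_add, hv1] at this
      exact eo (V := ZMod 2) this
    · rw [hφxe _ h] at hv1
      exact absurd hv1 (by decide)
  -- a value of `x` is a value of `x + t`
  have hval : ∀ t b, C S x t → Nz S x t = ⊤ → ∃ u, C S t u ∧ S.q x u = S.q x b ∧
      S.q (x + t) u = S.q x b := by
    intro t b ht hN
    have hb : b ∈ Nz S x t := by rw [hN]; trivial
    obtain ⟨u, hu, u2, hu2, rfl⟩ := Submodule.mem_sup.1 hb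
    have e1 : S.q x u = S.q x (u + u2) :=
      q_eq (C.of_eq (S := S) (x := x) (y := u2) hu2 rfl (eo (by abel_nf; simp [ch2, ch3, ch4])))
    refine ⟨u, hu, e1, ?_⟩
    rw [← e1]
    exact q_eq' (C.of_eq (S := S) (x := t) (y := u) hu (eo (by abel_nf; simp [ch2, ch3, ch4])) rfl)
  have hann : ∀ t, C S x t → Nz S x t = ⊤ → ∀ w, C S (x + t) w → φ w = 0 := by
    intro t ht hN w hw
    rcases ann_add_le hx hr ht hN hw with h | h
    · exact hφx w h
    · exact hφxe w h
  -- the mixed case
  have hmix : ∀ t u, C S x t → ¬ C S x u → (∃ v, C S t v ∧ φ v = 1) → φ u = 1 →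
      ∃ v, C S t v ∧ C S u v ∧ φ v = 1 := by
    intro t u ht hu htv hu1
    have hN := hfull t ht htv
    obtain ⟨u1, k1, k2, k3⟩ := hval t u ht hN
    have e0 : S.q u x = S.q x u := S.symm _ _
    obtain ⟨s, g1, g2⟩ := S.link _ _ _ _ (k3.trans e0.symm)
    have g1' : S.q (x + t) s = S.q x u := g1.symm.trans k3
    have g2' : C S u (s + x) := q_eq_iff.1 g2.symm
    by_cases hsx : C S x (s + x)
    · -- impossible
      exfalso
      have e1 : S.q t s = S.q x (s + u) := by
        have := addq2 g1'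
        rwa [show x + t + x = t from eo (by abel_nf; simp [ch2, ch3, ch4])] at this
      obtain ⟨y, -, m2, m3⟩ := link e1
      have m4 := hann t ht hN y (m3.of_eq (add_comm _ _) rfl)
      have m5 := hφx _ m2
      have m6 := hφx _ hsx
      rw [map_add, hφxx, add_zero] at m6
      rw [map_add, map_add, m6, hu1, m4] at m5
      exact absurd m5 (by decide)
    · rcases hx u _ g2' hu hsx with h | ⟨h, -⟩
      · refine ⟨s + x, ?_, g2', ?_⟩
        · have e1 : C S x (u + s) :=
            (h.add hxe).of_eq rfl (eo (by abel_nf; simp [ch2, ch3, ch4]))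
          have e2 : S.q x u = S.q x s := q_eq e1
          have e3 : C S t s :=
            (q_eq'_iff.1 (g1'.trans e2)).of_eq (eo (by abel_nf; simp [ch2, ch3, ch4])) rfl
          exact e3.add ht.symm
        · have := hφxe _ h
          rw [map_add, hu1] at this
          exact (eo (V := ZMod 2) this).symm
      · rw [hφxe _ h] at hu1
        exact absurd hu1 (by decide)
  refine ⟨φ, ?_, hφe, hφx, ?_⟩
  · intro h
    rw [h, LinearMap.zero_apply] at hφ1
    exact absurd hφ1 (by decide)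
  intro p p' hp hp' hpp
  by_cases h1 : C S x p
  · by_cases h2 : C S x p'
    · -- everything inside `V_x`
      have N1 := hfull p h1 hp
      have N2 := hfull p' h2 hp'
      obtain ⟨u, a1, a2, a3⟩ := hval p v0 h1 N1
      obtain ⟨u', b1, b2, b3⟩ := hval p' v0 h2 N2
      obtain ⟨y, g1, g2⟩ := S.link _ _ _ _ (a3.trans b3.symm)
      have c1 : C S (x + p) (u + y) := q_eq_iff.1 g1
      have g1' : S.q (x + p) y = S.q x v0 := g1.symm.trans a3
      have g2' : S.q (x + p') y = S.q x v0 := g2.symm.trans b3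
      have c5 : φ y = 1 := by
        have := hann p h1 N1 _ c1
        have h3 := hφx _ (q_eq_iff.1 a2)
        rw [map_add, hφ1] at h3
        rw [map_add, eo (V := ZMod 2) h3] at this
        exact (eo (V := ZMod 2) this).symm
      by_cases c4 : C S x (y + v0)
      · have c3 : S.q x y = S.q x v0 := q_eq_iff.2 c4
        have c6 : C S p y :=
          (q_eq'_iff.1 (g1'.trans c3.symm)).of_eq
            (eo (by abel_nf; simp [ch2, ch3, ch4])) rfl
        have c7 : C S p' y :=
          (q_eq'_iff.1 (g2'.trans c3.symm)).of_eq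
            (eo (by abel_nf; simp [ch2, ch3, ch4])) rfl
        exact ⟨y, c6, c7, c5⟩
      · -- `q (p, y) = q (p', y) = q (x, e)`
        have c8 : C S x (y + v0 + S.e) := by
          have k1 : C S x (u + v0) := q_eq_iff.1 a2
          rcases ann_add_le hx hr h1 N1 c1 with h | h
          · exact absurd ((h.add k1).of_eq rfl (eo (by abel_nf; simp [ch2, ch3, ch4]))) c4
          · exact (h.add k1).of_eq rfl (eo (by abel_nf; simp [ch2, ch3, ch4]))
        have d1 : S.q p y = S.q x S.e := by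
          have := addq2 g1'
          rw [show x + p + x = p from eo (by abel_nf; simp [ch2, ch3, ch4])] at this
          rw [this]
          exact q_eq c8
        have d2 : S.q p' y = S.q x S.e := by
          have := addq2 g2'
          rw [show x + p' + x = p' from eo (by abel_nf; simp [ch2, ch3, ch4])] at this
          rw [this]
          exact q_eq c8
        -- the corrections
        have corr : ∀ p p', C S x p → C S x p' → Nz S x p = ⊤ → S.q p' y = S.q x S.e →
            ∃ s, φ s = 0 ∧ S.q p' s = S.q x S.e ∧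
              (C S x s ∧ S.q p s = S.q x S.e ∨ C S p s) := by
          intro p p' h1 h2 N1 d2
          obtain ⟨r, r1, r2, r3⟩ := hval p S.e h1 N1
          obtain ⟨s, s1, s2⟩ := S.link _ _ _ _ (r3.trans d2.symm)
          have s1' : S.q (x + p) s = S.q x S.e := s1.symm.trans r3
          have s2' : S.q p' s = S.q x S.e := s2.symm.trans d2
          have s3 : C S (x + p) (r + s) := q_eq_iff.1 s1
          have s4 : C S x (r + S.e) := q_eq_iff.1 r2
          refine ⟨s, ?_, s2', ?_⟩
          · have m1 := hann p h1 N1 _ s3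
            have m2 := hφxe _ s4
            rw [map_add, m2, zero_add] at m1
            exact m1
          · rcases ann_add_le hx hr h1 N1 s3 with h | h
            · -- `s` in `e + V_x`
              right
              have m1 : C S x (s + S.e) :=
                (h.add s4).of_eq rfl (eo (by abel_nf; simp [ch2, ch3, ch4]))
              have m2 : S.q x s = S.q x S.e := q_eq_iff.2 m1
              exact (q_eq'_iff.1 (s1'.trans m2.symm)).of_eq
                (eo (by abel_nf; simp [ch2, ch3, ch4])) rfl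
            · left
              have m1 : C S x s := (h.add s4).of_eq rfl (eo (by abel_nf; simp [ch2, ch3, ch4]))
              refine ⟨m1, ?_⟩
              rw [← s1']
              exact (q_eq' (m1.of_eq (eo (by abel_nf; simp [ch2, ch3, ch4])) rfl)).symm
        have fin : ∀ z, φ z = 0 → S.q p z = S.q x S.e → S.q p' z = S.q x S.e →
            ∃ v, C S p v ∧ C S p' v ∧ φ v = 1 := by
          intro z z0 z1 z2
          exact ⟨y + z, q_eq_iff.1 (d1.trans z1.symm), q_eq_iff.1 (d2.trans z2.symm),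
            by rw [map_add, c5, z0]; decide⟩
        obtain ⟨s, s0, s1, s2⟩ := corr p p' h1 h2 N1 d2
        obtain ⟨s', s0', s1', s2'⟩ := corr p' p h2 h1 N2 d1
        rcases s2 with ⟨-, s2⟩ | s2
        · exact fin s s0 s2 s1
        rcases s2' with ⟨-, s2'⟩ | s2'
        · exact fin s' s0' s1' s2'
        refine fin (s + s') (by rw [map_add, s0, s0']; decide) ?_ ?_
        · rw [← s1']
          exact q_eq (s2.of_eq rfl (eo (by abel_nf; simp [ch2, ch3, ch4])))
        · rw [← s1]
          exact q_eq (s2'.of_eq rfl (eo (by abel_nf; simp [ch2, ch3, ch4])))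
    · exact hmix p p' h1 h2 hp (hout p' h2 hp')
  · by_cases h2 : C S x p'
    · obtain ⟨v, a, b, c⟩ := hmix p' p h2 h1 hp' (hout p h1 hp)
      exact ⟨v, b, a, c⟩
    · by_cases h3 : C S x (p + p')
      · obtain ⟨v, a, b, c⟩ := hmix (p + p') p h3 h1 hpp (hout p h1 hp)
        refine ⟨v, b, ?_, c⟩
        exact (a.add' b).of_eq (eo (by abel_nf; simp [ch2, ch3, ch4])) rfl
      · exfalso
        have e1 := hout p h1 hp
        have e2 := hout p' h2 hp'
        have e3 := hout _ h3 hpp
        rw [map_add, e1, e2] at e3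
        exact absurd e3 (by decide)

end Pool.Agent.ETCE
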