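import Pool.Agent.ETCISO.MType
import Pool.Agent.ETCE.Prime

/-!
# Mixed types, arbitrary `-1` (helper16; after helper44, ETCISO/MType)

An element `w` with `q(w, e) = 0` and without mixed types is isolated, and gives a prime functional
which kills `e` if its rank is at least two.
-/

set_option autoImplicit false
set_option linter.unusedSimpArgs false
set_option linter.unusedVariables false
set_option linter.unusedSectionVars false

namespace Pool.Agent.ETCE

open Pool.Agent.Helper58.PLine (QData)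
open Pool.Agent.ETCP
open Pool.Agent.ETCISO (Val Tr NoMixed lemmaT)

variable {V Q : Type} [AddCommGroup V] [Module (ZMod 2) V] {S : QData V Q}

/-- **An element `w` without mixed types, with `q(w, e) = 0`, is isolated.** -/
theorem iso_of_noMixed [Finite V] {w : V} (hwe : C S w S.e) (hw : NoMixed S w) : Iso S w := by
  intro v y hvy hv hwy
  left
  by_contra hcon
  have hwyv : ¬ C S w (v + y) := fun h => hcon (h.add hwe)
  have hy : C S v y := hvy
  have hvw : Val S (S.q w v) v := ⟨w, S.symm _ _⟩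
  have hTr : Tr S (S.q w v) (S.q w y) (S.q w (v + y)) := ⟨w, v, y, rfl, rfl, rfl⟩
  have hve : S.q w (v + S.e) = S.q w v :=
    q_eq (hwe.of_eq rfl (eo (by abel_nf; simp [ch2, ch3, ch4])))
  have hvye : S.q w (v + y + S.e) = S.q w (v + y) :=
    q_eq (hwe.of_eq rfl (eo (by abel_nf; simp [ch2, ch3, ch4])))
  have vwv : Val S (S.q w v) (w + v) := ⟨v + S.e, by
    rw [← hve]
    exact q_eq' (C.of_eq (S.diag v) (by
      rw [add_comm w v, add_assoc, ZModModule.add_self, add_zero]) rfl)⟩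
  have ywv : Val S (S.q w y) (w + v) := ⟨y, q_eq' (hy.of_eq (by
    rw [add_comm w v, add_assoc, ZModModule.add_self, add_zero]) rfl)⟩
  have vywv : Val S (S.q w (v + y)) (w + v) := ⟨v + y + S.e, by
    rw [← hvye]
    have h1 : C S v (v + y + S.e) := (C.add (S := S) (S.diag v) hy).of_eq rfl (by abel)
    exact q_eq' (h1.of_eq (by
      rw [add_comm w v, add_assoc, ZModModule.add_self, add_zero]) rfl)⟩
  have hww : w + (w + v) = v := by rw [← add_assoc, ZModModule.add_self, zero_add]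
  have yv : Val S (S.q w y) v := by
    have := hw (w + v) (S.q w v) (S.q w y) hv ⟨v, rfl⟩ vwv (by rw [hww]; exact hvw) ⟨y, rfl⟩ ywv
    rwa [hww] at this
  refine lemmaT hTr hwyv ⟨v, rfl⟩ ⟨y, rfl⟩ ?_ v hvw yv vywv
  rintro z ⟨s, hs⟩ ⟨t, ht⟩
  have hzc : Val S (S.q w (v + y)) z := ⟨s + t, hTr.sum hs ht⟩
  refine ⟨⟨fun h => ?_, fun h => ?_⟩, ⟨fun h => ?_, fun h => ?_⟩⟩
  · exact hw z _ _ hv ⟨v, rfl⟩ ⟨s, hs⟩ h ⟨_, rfl⟩ hzc
  · exact hw z _ _ hwyv ⟨_, rfl⟩ hzc h ⟨v, rfl⟩ ⟨s, hs⟩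
  · exact hw z _ _ hwy ⟨y, rfl⟩ ⟨t, ht⟩ h ⟨_, rfl⟩ hzc
  · exact hw z _ _ hwyv ⟨_, rfl⟩ hzc h ⟨y, rfl⟩ ⟨t, ht⟩

/-- An element `w` of rank at least two with `q(w, e) = 0` and without mixed types gives a prime
functional which kills `e`. -/
theorem prime_of_noMixed [Finite V] {w : V} (hwe : C S w S.e) (hw : NoMixed S w)
    (hr : Big S w) :
    ∃ φ : V →ₗ[ZMod 2] ZMod 2, φ ≠ 0 ∧ φ S.e = 0 ∧ (∀ y, C S w y → φ y = 0) ∧
      ∀ p p', (∃ v, C S p v ∧ φ v = 1) → (∃ v, C S p' v ∧ φ v = 1) →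
        (∃ v, C S (p + p') v ∧ φ v = 1) → ∃ v, C S p v ∧ C S p' v ∧ φ v = 1 :=
  prime_of_isolated (iso_of_noMixed hwe hw) hr

end Pool.Agent.ETCE
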