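import Pool.Agent.ETCP.Four

/-!
# A commutative value group `V_p`: definitions and first facts (helper29)

After helper98, helper5, helper82, helper74 (notes 1255, 1264, 1265, 1268, 1273).
-/

set_option autoImplicit false
set_option linter.unusedSimpArgs false
set_option linter.unnecessarySeqFocus false
set_option linter.unusedSectionVars false
set_option linter.unusedVariables false

namespace Pool.Agent.ETCE

open Pool.Agent.Helper58.PLine (QData)
open Pool.Agent.ETCP

variable {V Q : Type} [AddCommGroup V] [Module (ZMod 2) V] {S : QData V Q}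

/-- additivity of a relation between two slots -/
theorem qadd {a a' b b' c c' : V} (h1 : S.q a b = S.q a' b') (h2 : S.q a c = S.q a' c') :
    S.q a (b + c) = S.q a' (b' + c') := by
  obtain ⟨t, t1, t2, t3⟩ := link h1
  obtain ⟨u, u1, u2, u3⟩ := link h2
  have e1 : S.q a (b + c) = S.q a (t + u) := q_eq ((t1.add u1).of_eq rfl (eo (by abel_nf <;> simp only [ch2, ch3, ch4, ch5, ch6, add_zero, zero_add])))
  have e2 : S.q a' (b' + c') = S.q a' (t + u) := q_eq ((t2.add u2).of_eq rfl (eo (by abel_nf <;> simp only [ch2, ch3, ch4, ch5, ch6, add_zero, zero_add])))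
  rw [e1, e2]
  exact q_eq' (t3.add u3)

/-- drop a commuting summand -/
theorem qr {x y y' : V} (h : C S x y') : S.q x (y + y') = S.q x y := q_eq (h.of_eq rfl (eo (by abel_nf <;> simp only [ch2, ch3, ch4, ch5, ch6, add_zero, zero_add])))

theorem ql {x x' y : V} (h : C S x' y) : S.q (x + x') y = S.q x y := q_eq' (h.of_eq (eo (by abel_nf <;> simp only [ch2, ch3, ch4, ch5, ch6, add_zero, zero_add])) rfl)

variable (S) in
/-- `V_p` is commutative -/
structure Com (p : V) : Prop where
  he : S.e = 0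
  comm : ∀ g h, C S p g → C S p h → C S g h

variable (S) in
/-- `c` is in `Theta_y` (lifted to `V`) -/
def Th (p y c : V) : Prop := ∃ e, C S p e ∧ S.q p c = S.q e y

variable (S) in
/-- `X_y + X_z = V_p` -/
def Orth (p y z : V) : Prop := ∀ g, C S p g → ∃ m, C S p m ∧ C S m y ∧ C S (g + m) z

variable (S) in
/-- atoms -/
def Atom (p y : V) : Prop := ¬ C S p y ∧ ∀ θ, Th S p y θ → C S p θ ∨ C S p (y + θ)

variable (S) in
/-- elements outside the union of the `V_e + V_(e+p)`, `e ∈ V_p - {0, p}` -/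
def Free (p u : V) : Prop := ∀ e θ, C S p e → S.q e u = S.q p θ → e = 0 ∨ e = p

variable (S) in
/-- `c ∈ G_y` (lifted to `V`) -/
def Gm (p y c : V) : Prop := ∃ h e, C S p h ∧ C S p e ∧ C S (y + h) (c + e)

theorem Gm.add (he : S.e = 0) {p y c c' : V} (h : Gm S p y c) (h' : Gm S p y c') :
    Gm S p y (c + c') := by
  obtain ⟨a, b, ha, hb, hc⟩ := h
  obtain ⟨a', b', ha', hb', hc'⟩ := h'
  obtain ⟨k, l, hk, hl, hkl⟩ := ((G.of_cover ha hb hc.symm).add (G.of_cover ha' hb' hc'.symm)).cover he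
  exact ⟨k, l, hk, hl, hkl.symm⟩

namespace Com

variable {p : V} (X : Com S p)
include X

theorem self (x : V) : C S x x := C.self X.he x

theorem cc {e f : V} (he : C S p e) (hf : C S p f) : C S e f := X.comm _ _ he hf

/-- (1) `c ∈ K_(h0)`: then `c ∈ K_(h0+f)` iff `T_f c ∈ I_y` -/
theorem K_iff {y h0 e0 c f : V} (hh : C S p h0) (he0 : C S p e0) (hf : C S p f)
    (hc : C S (y + h0) (c + e0)) :
    (∃ e, C S p e ∧ C S (y + (h0 + f)) (c + e)) ↔ (∃ e, C S p e ∧ S.q f c = S.q e y) := by
  constructor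
  · rintro ⟨e, he, h⟩
    refine ⟨e0 + e, he0.add he, ?_⟩
    have h1 : S.q (y + h0) (c + e) = S.q f (c + e) := q_eq' (h.of_eq (eo (by abel_nf <;> simp only [ch2, ch3, ch4, ch5, ch6, add_zero, zero_add])) rfl)
    have h2 : S.q f (c + e) = S.q f c := qr (X.cc hf he)
    have h3 : S.q (y + h0) (c + e) = S.q (y + h0) (e0 + e) := q_eq (hc.of_eq rfl (eo (by abel_nf <;> simp only [ch2, ch3, ch4, ch5, ch6, add_zero, zero_add])))
    have h4 : S.q (y + h0) (e0 + e) = S.q y (e0 + e) := ql (X.cc hh (he0.add he))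
    rw [← h2, ← h1, h3, h4, S.symm]
  · rintro ⟨e, he, h⟩
    refine ⟨e0 + e, he0.add he, ?_⟩
    have h3 : S.q (y + h0) (c + (e0 + e)) = S.q (y + h0) e := q_eq (hc.of_eq rfl (eo (by abel_nf <;> simp only [ch2, ch3, ch4, ch5, ch6, add_zero, zero_add])))
    have h4 : S.q (y + h0) e = S.q y e := ql (X.cc hh he)
    have h2 : S.q f (c + (e0 + e)) = S.q f c := qr (X.cc hf (he0.add he))
    have h5 : S.q (y + h0) (c + (e0 + e)) = S.q f (c + (e0 + e)) := by
      rw [h3, h4, h2, h, S.symm]
    exact (q_eq'_iff.1 h5).of_eq (eo (by abel_nf <;> simp only [ch2, ch3, ch4, ch5, ch6, add_zero, zero_add])) rfl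

end Com

end Pool.Agent.ETCE
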