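import Pool.Agent.ETCE.Basic

/-!
# The counting lemma (helper98, helper5), in Lean (helper29)
-/

set_option autoImplicit false
set_option linter.unusedSimpArgs false
set_option linter.unnecessarySeqFocus false
set_option linter.unusedSectionVars false
set_option linter.unusedVariables false

namespace Pool.Agent.ETCE

open Pool.Agent.Helper58.PLine (QData)
open Pool.Agent.ETCP

section
variable {V ι : Type} [AddCommGroup V] [Module (ZMod 2) V] [Fintype ι]

open Finset in
/-- double counting -/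
theorem dc (T : Finset V) (r : ι → V → Prop) [∀ i c, Decidable (r i c)] :
    ∑ i, (T.filter (fun c => r i c)).card = ∑ c ∈ T, (univ.filter (fun i => r i c)).card :=
  Finset.sum_card_bipartiteAbove_eq_sum_card_bipartiteBelow r

open Finset in
/-- two families of subgroups with the same multiplicities: if all members of the first meet a
coset, then all members of the second do -/
theorem count_meet [Fintype V] (K P : ι → V → Prop) (L : V → Prop) (t0 : V)
    (hL : ∀ a b, L a → L b → L (a + b)) (hK : ∀ i a b, K i a → K i b → K i (a + b))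
    (hP : ∀ i a b, P i a → P i b → P i (a + b)) (hP0 : ∀ i, P i 0) (hL0 : L 0)
    (hm : ∀ i, ∃ c, K i c ∧ L (c + t0))
    (h0 : ∀ c, L c → Nat.card {i // K i c} = Nat.card {i // P i c})
    (h1 : ∀ c, L (c + t0) → Nat.card {i // K i c} = Nat.card {i // P i c}) :
    ∀ i, ∃ c, P i c ∧ L (c + t0) := by
  classical
  have hcard : ∀ c, (Nat.card {i // K i c} = Nat.card {i // P i c}) →
      (univ.filter (fun i => K i c)).card = (univ.filter (fun i => P i c)).card := by
    intro c h
    rw [Nat.card_eq_fintype_card, Nat.card_eq_fintype_card, Fintype.card_subtype,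
      Fintype.card_subtype] at h
    exact h
  let T0 : Finset V := univ.filter (fun c => L c)
  let T1 : Finset V := univ.filter (fun c => L (c + t0))
  have mT0 : ∀ c, c ∈ T0 ↔ L c := fun c => by simp [T0]
  have mT1 : ∀ c, c ∈ T1 ↔ L (c + t0) := fun c => by simp [T1]
  have s0 : ∑ i, (T0.filter (fun c => K i c)).card = ∑ i, (T0.filter (fun c => P i c)).card := by
    rw [dc, dc]
    exact Finset.sum_congr rfl fun c hc => hcard c (h0 c ((mT0 c).1 hc))
  have s1 : ∑ i, (T1.filter (fun c => K i c)).card = ∑ i, (T1.filter (fun c => P i c)).card := by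
    rw [dc, dc]
    exact Finset.sum_congr rfl fun c hc => hcard c (h1 c ((mT1 c).1 hc))
  -- translation
  have tr : ∀ (R : V → Prop), (∀ a b, R a → R b → R (a + b)) → ∀ c0, R c0 → L (c0 + t0) →
      (T1.filter (fun c => R c)).card = (T0.filter (fun c => R c)).card := by
    intro R hR c0 hc0 hc0'
    apply Finset.card_bij (fun c _ => c + c0)
    · intro c hc
      rw [Finset.mem_filter, mT1] at hc
      rw [Finset.mem_filter, mT0]
      refine ⟨?_, hR _ _ hc.2 hc0⟩
      have := hL _ _ hc.1 hc0'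
      rwa [show c + t0 + (c0 + t0) = c + c0 from (eo (by abel_nf <;> simp only [ch2, ch3, ch4, ch5, ch6, add_zero, zero_add]))] at this
    · intro a _ b _ h
      exact add_right_cancel h
    · intro b hb
      rw [Finset.mem_filter, mT0] at hb
      refine ⟨b + c0, ?_, (eo (by abel_nf <;> simp only [ch2, ch3, ch4, ch5, ch6, add_zero, zero_add]))⟩
      rw [Finset.mem_filter, mT1]
      refine ⟨?_, hR _ _ hb.2 hc0⟩
      have := hL _ _ hb.1 hc0'
      rwa [show b + (c0 + t0) = b + c0 + t0 from (eo (by abel_nf <;> simp only [ch2, ch3, ch4, ch5, ch6, add_zero, zero_add]))] at this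
  have e1 : ∑ i, (T1.filter (fun c => K i c)).card = ∑ i, (T0.filter (fun c => K i c)).card := by
    apply Finset.sum_congr rfl
    intro i _
    obtain ⟨c0, h1, h2⟩ := hm i
    exact tr (K i) (hK i) c0 h1 h2
  have e2 : ∀ i, (T1.filter (fun c => P i c)).card ≤ (T0.filter (fun c => P i c)).card := by
    intro i
    by_cases h : ∃ c, P i c ∧ L (c + t0)
    · obtain ⟨c0, h1, h2⟩ := h
      exact (tr (P i) (hP i) c0 h1 h2).le
    · have : T1.filter (fun c => P i c) = ∅ := by
        rw [Finset.filter_eq_empty_iff]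
        intro c hc hPc
        exact h ⟨c, hPc, (mT1 c).1 hc⟩
      rw [this]
      exact Nat.zero_le _
  have e3 : ∑ i, (T1.filter (fun c => P i c)).card = ∑ i, (T0.filter (fun c => P i c)).card := by
    rw [← s1, e1, s0]
  have e4 : ∀ i ∈ (univ : Finset ι), (T1.filter (fun c => P i c)).card =
      (T0.filter (fun c => P i c)).card := (Finset.sum_eq_sum_iff_of_le (fun i _ => e2 i)).1 e3
  intro i
  have h5 : 0 < (T0.filter (fun c => P i c)).card := by
    apply Finset.card_pos.2
    exact ⟨0, by rw [Finset.mem_filter, mT0]; exact ⟨hL0, hP0 i⟩⟩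
  rw [← e4 i (Finset.mem_univ i), Finset.card_pos] at h5
  obtain ⟨c, hc⟩ := h5
  rw [Finset.mem_filter, mT1] at hc
  exact ⟨c, hc.2, hc.1⟩

end

variable {V Q : Type} [AddCommGroup V] [Module (ZMod 2) V] {S : QData V Q}

namespace Com

variable {p : V} (X : Com S p)
include X

/-- the number of `h` with `c ∈ K_h` is the number of `f` with `T_f c ∈ I_y` -/
theorem card_K [Finite V] {y c : V} (hc : Gm S p y c) :
    Nat.card {i : {h // C S p h} // ∃ e, C S p e ∧ C S (y + i.1) (c + e)} =
      Nat.card {i : {h // C S p h} // ∃ e, C S p e ∧ S.q i.1 c = S.q e y} := by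
  obtain ⟨h0, e0, hh0, he0, hc0⟩ := hc
  apply Nat.card_congr
  refine ⟨fun i => ⟨⟨h0 + i.1.1, hh0.add i.1.2⟩, ?_⟩, fun i => ⟨⟨h0 + i.1.1, hh0.add i.1.2⟩, ?_⟩,
    ?_, ?_⟩
  · apply (X.K_iff hh0 he0 (hh0.add i.1.2) hc0).1
    obtain ⟨e, he, h⟩ := i.2
    exact ⟨e, he, h.of_eq (eo (by abel_nf <;> simp only [ch2, ch3, ch4, ch5, ch6, add_zero, zero_add])) rfl⟩
  · obtain ⟨e, he, h⟩ := (X.K_iff hh0 he0 i.1.2 hc0).2 i.2
    exact ⟨e, he, h⟩
  · intro i
    apply Subtype.ext
    apply Subtype.ext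
    show h0 + (h0 + i.1.1) = i.1.1
    exact (eo (by abel_nf <;> simp only [ch2, ch3, ch4, ch5, ch6, add_zero, zero_add]))
  · intro i
    apply Subtype.ext
    apply Subtype.ext
    show h0 + (h0 + i.1.1) = i.1.1
    exact (eo (by abel_nf <;> simp only [ch2, ch3, ch4, ch5, ch6, add_zero, zero_add]))

/-- **Lemma B'** (helper5): `Q_x ∩ I_y ⊆ q (x, Theta_y)` -/
theorem lb [Finite V] {x y t e : V} (he : C S p e) (h : S.q x t = S.q e y) :
    ∃ k, Th S p y k ∧ C S x (t + k) := by
  classical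
  have := Fintype.ofFinite V
  -- for every `h'` the coset `t + V_x` meets `K_h'`
  have key : ∀ h', C S p h' → ∃ c, C S x (c + t) ∧ ∃ e', C S p e' ∧ C S (y + h') (c + e') := by
    intro h' hh'
    have e1 : S.q x t = S.q (y + h') e := by
      rw [h, ql (X.cc hh' he), S.symm]
    obtain ⟨u, u1, u2, u3⟩ := link e1
    exact ⟨u, u1.of_eq rfl (eo (by abel_nf <;> simp only [ch2, ch3, ch4, ch5, ch6, add_zero, zero_add])), e, he, u2.of_eq rfl (eo (by abel_nf <;> simp only [ch2, ch3, ch4, ch5, ch6, add_zero, zero_add]))⟩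
  obtain ⟨t0, ht0, e0, he0, hc0⟩ := key 0 (C.zero p)
  have hG0 : Gm S p y t0 := ⟨0, e0, C.zero p, he0, hc0⟩
  have main := count_meet (ι := {h // C S p h})
    (fun i c => ∃ e, C S p e ∧ C S (y + i.1) (c + e))
    (fun i c => ∃ e, C S p e ∧ S.q i.1 c = S.q e y)
    (fun c => C S x c ∧ Gm S p y c) t0
    (fun a b ha hb => ⟨ha.1.add hb.1, Gm.add X.he ha.2 hb.2⟩)
    (fun i a b ha hb => by
      obtain ⟨e1, h1, k1⟩ := ha
      obtain ⟨e2, h2, k2⟩ := hb
      exact ⟨e1 + e2, h1.add h2, (k1.add k2).of_eq rfl (eo (by abel_nf <;> simp only [ch2, ch3, ch4, ch5, ch6, add_zero, zero_add]))⟩)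
    (fun i a b ha hb => by
      obtain ⟨e1, h1, k1⟩ := ha
      obtain ⟨e2, h2, k2⟩ := hb
      refine ⟨e1 + e2, h1.add h2, ?_⟩
      rw [S.symm (e1 + e2) y]
      exact qadd (by rw [k1, S.symm]) (by rw [k2, S.symm]))
    (fun i => ⟨0, C.zero p, by rw [show S.q i.1 0 = S.z from C.zero (S := S) _, show S.q 0 y = S.z from C.zero' (S := S) _]⟩)
    ⟨C.zero x, 0, 0, C.zero p, C.zero p, (C.zero (S := S) y).of_eq (eo (by abel_nf <;> simp only [ch2, ch3, ch4, ch5, ch6, add_zero, zero_add])) (eo (by abel_nf <;> simp only [ch2, ch3, ch4, ch5, ch6, add_zero, zero_add]))⟩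
    (fun i => by
      obtain ⟨c, hc, e', he', hce⟩ := key i.1 i.2
      refine ⟨c, ⟨e', he', hce⟩, (hc.add ht0).of_eq rfl (eo (by abel_nf <;> simp only [ch2, ch3, ch4, ch5, ch6, add_zero, zero_add])), ?_⟩
      exact Gm.add X.he ⟨i.1, e', i.2, he', hce⟩ hG0)
    (fun c hc => X.card_K hc.2)
    (fun c hc => by
      apply X.card_K
      have := Gm.add X.he hc.2 hG0
      rwa [show c + t0 + t0 = c from (eo (by abel_nf <;> simp only [ch2, ch3, ch4, ch5, ch6, add_zero, zero_add]))] at this)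
  obtain ⟨c, ⟨e', he', hc1⟩, hc2, -⟩ := main ⟨p, C.self X.he p⟩
  exact ⟨c, ⟨e', he', hc1⟩, (hc2.add ht0).of_eq rfl (eo (by abel_nf <;> simp only [ch2, ch3, ch4, ch5, ch6, add_zero, zero_add]))⟩

end Com

end Pool.Agent.ETCE
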