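import Pool.Agent.ETCE.Theta

/-!
# Atoms, (AFF), (LAM), three orthogonal elements (helper98, helper5, helper82, helper74),
in Lean (helper29)
-/

set_option autoImplicit false
set_option linter.unusedSimpArgs false
set_option linter.unnecessarySeqFocus false
set_option linter.unusedSectionVars false
set_option linter.unusedVariables false

namespace Pool.Agent.ETCE

open Pool.Agent.Helper58.PLine (QData)
open Pool.Agent.ETCP

variable {V Q : Type} [AddCommGroup V] [Module (ZMod 2) V] {S : QData V Q}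

theorem exists_max_nat {α : Type} [Finite α] {P : α → Prop} (h : ∃ x, P x) (f : α → ℕ) :
    ∃ x, P x ∧ ∀ y, P y → f y ≤ f x := by
  obtain ⟨x, hx, hm⟩ := Set.exists_max_image {x | P x} f (Set.toFinite _) h
  exact ⟨x, hx, hm⟩

variable (S) in
/-- `X_y` as a set -/
def XS (p y : V) : Set V := {g | C S p g ∧ C S g y}

theorem XS_eq {p y z : V} [Finite V] (h : XS S p y ⊆ XS S p z)
    (hc : Nat.card (XS S p z) ≤ Nat.card (XS S p y)) : XS S p z ⊆ XS S p y := by
  have h1 := Set.eq_of_subset_of_ncard_le h hc (Set.toFinite _)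
  rw [h1]

theorem XS_card {p y z : V} [Finite V] (h : XS S p y ⊆ XS S p z) :
    Nat.card (XS S p y) ≤ Nat.card (XS S p z) :=
  Set.ncard_le_ncard h (Set.toFinite _)

namespace Com

variable {p : V} (X : Com S p)
include X

variable [Finite V]

/-- a nonzero `b ∈ I_w` is in some `I_θ`, `θ ∈ Theta_w`, with `T_b ⊆ h + X_θ` -/
theorem aff {w h : V} (hh : C S p h) (hb : S.q h w ≠ S.z) :
    ∃ θ, Th S p w θ ∧ S.q h w = S.q h θ ∧
      ∀ f t, C S p f → S.q h w = S.q f t → C S (h + f) θ := by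
  obtain ⟨θ, ⟨hθ, h1, hh1, e1⟩, hm⟩ := exists_max_nat
    (P := fun θ => Th S p w θ ∧ ∃ h', C S p h' ∧ S.q h w = S.q h' θ)
    ⟨w, th_self w (X.self p), h, hh, rfl⟩ (fun θ => Nat.card (XS S p θ))
  have key : ∀ f t, C S p f → S.q h w = S.q f t → C S (h1 + f) θ := by
    intro f t hf ht
    obtain ⟨k, hk, h2⟩ := X.lb (x := f) (t := t) hh1 (by rw [← ht, e1])
    have e2 : S.q h w = S.q f k := by rw [ht]; exact q_eq h2
    have sub : XS S p θ ⊆ XS S p k := fun g hg => ⟨hg.1, X.thA hg.1 hg.2 hk⟩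
    have h3 := hm k ⟨X.th_trans hθ hk, f, hf, e2⟩
    have sup := XS_eq sub h3
    obtain ⟨e, he, h4⟩ := hk
    obtain ⟨a1, a2⟩ := X.th_e he h4
    have a3 : C S (p + e) θ := (sup ⟨(X.self p).add he, a1⟩).2
    have a4 : C S p (θ + k) := ((a3.add a1).add' a2).of_eq (eo (by abel_nf <;> simp only [ch2, ch3, ch4, ch5, ch6, add_zero, zero_add])) rfl
    have e3 : S.q f k = S.q f θ := q_eq ((X.cc hf a4).of_eq rfl (eo (by abel_nf <;> simp only [ch2, ch3, ch4, ch5, ch6, add_zero, zero_add])))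
    exact q_eq'_iff.1 (by rw [← e1, e2, e3])
  have e4 : C S (h1 + h) θ := key h w hh rfl
  have e5 : S.q h w = S.q h θ := by rw [e1]; exact q_eq' e4
  refine ⟨θ, hθ, e5, ?_⟩
  intro f t hf ht
  exact (e4.add' (key f t hf ht)).of_eq (eo (by abel_nf <;> simp only [ch2, ch3, ch4, ch5, ch6, add_zero, zero_add])) rfl

/-- (AFF) for atoms -/
theorem atomT {y e f t : V} (ha : Atom S p y) (he : C S p e) (hf : C S p f)
    (hb : S.q e y ≠ S.z) (h : S.q e y = S.q f t) : C S (e + f) y := by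
  obtain ⟨k, hk, h1⟩ := X.lb he h.symm
  have e1 : S.q e y = S.q f k := h.trans (q_eq h1)
  rcases ha.2 k hk with h2 | h2
  · exact absurd (e1.trans (X.cc hf h2)) hb
  · exact q_eq'_iff.1 (by rw [e1]; exact q_eq ((X.cc hf h2).of_eq rfl (eo (by abel_nf <;> simp only [ch2, ch3, ch4, ch5, ch6, add_zero, zero_add]))))

/-- every element outside `V_p` dominates an atom -/
theorem exists_atom {w : V} (hw : ¬ C S p w) : ∃ a, Atom S p a ∧ Th S p w a := by
  obtain ⟨a, ⟨ha, h1⟩, hm⟩ := exists_max_nat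
    (P := fun θ => Th S p w θ ∧ ¬ C S p θ)
    ⟨w, th_self w (X.self p), hw⟩ (fun θ => Nat.card (XS S p θ))
  refine ⟨a, ⟨h1, ?_⟩, ha⟩
  intro θ hθ
  by_contra hcon
  rw [not_or] at hcon
  obtain ⟨n1, n2⟩ := hcon
  have sub : XS S p a ⊆ XS S p θ := fun g hg => ⟨hg.1, X.thA hg.1 hg.2 hθ⟩
  have sup := XS_eq sub (hm θ ⟨X.th_trans ha hθ, n1⟩)
  obtain ⟨e, he, h4⟩ := hθ
  obtain ⟨a1, a2⟩ := X.th_e he h4
  have a3 : C S (p + e) a := (sup ⟨(X.self p).add he, a1⟩).2
  exact n2 (((a3.add a1).add' a2).of_eq (eo (by abel_nf <;> simp only [ch2, ch3, ch4, ch5, ch6, add_zero, zero_add])) rfl)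

/-- induction over orthogonal sums -/
theorem orth_induction {P : V → Prop} (hE : ∀ k, C S p k → P k) (hA : ∀ a, Atom S p a → P a)
    (hS : ∀ y z, ¬ C S p y → ¬ C S p z → Orth S p y z → P y → P z → P (y + z)) (w : V) : P w := by
  by_contra hw
  obtain ⟨w, hw, hm⟩ := exists_max_nat (P := fun w => ¬ P w) ⟨w, hw⟩
    (fun θ => Nat.card (XS S p θ))
  have h1 : ¬ C S p w := fun h => hw (hE w h)
  have h2 : ¬ Atom S p w := fun h => hw (hA w h)
  have h3 : ∃ θ, Th S p w θ ∧ ¬ C S p θ ∧ ¬ C S p (w + θ) := by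
    by_contra hcon
    apply h2
    refine ⟨h1, fun θ hθ => ?_⟩
    by_contra h4
    rw [not_or] at h4
    exact hcon ⟨θ, hθ, h4.1, h4.2⟩
  obtain ⟨θ, hθ, n1, n2⟩ := h3
  have ho := X.orth_th hθ
  -- strictly larger annihilators
  have big : ∀ k, Th S p w k → ¬ C S p (w + k) → P k := by
    intro k hk n
    by_contra hPk
    have sub : XS S p w ⊆ XS S p k := fun g hg => ⟨hg.1, X.thA hg.1 hg.2 hk⟩
    have sup := XS_eq sub (hm k hPk)
    obtain ⟨e, he, h4⟩ := hk
    obtain ⟨a1, a2⟩ := X.th_e he h4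
    have a3 : C S (p + e) w := (sup ⟨(X.self p).add he, a1⟩).2
    exact n (((a3.add a1).add' a2).of_eq (eo (by abel_nf <;> simp only [ch2, ch3, ch4, ch5, ch6, add_zero, zero_add])) rfl)
  have p1 := big θ hθ n2
  have p2 := big (w + θ) (X.th_compl hθ) (by rwa [show w + (w + θ) = θ from (eo (by abel_nf <;> simp only [ch2, ch3, ch4, ch5, ch6, add_zero, zero_add]))])
  have := hS _ _ n1 n2 ho p1 p2
  rw [show θ + (w + θ) = w from (eo (by abel_nf <;> simp only [ch2, ch3, ch4, ch5, ch6, add_zero, zero_add]))] at this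
  exact hw this

/-- (LAM) -/
theorem lam {x y p1 p2 : V} (hx : Atom S p x) (hy : Atom S p y) (h1 : C S p p1)
    (h1x : C S p1 x) (h1y : ¬ C S p1 y) (h2 : C S p p2) (h2y : C S p2 y) (h2x : ¬ C S p2 x) :
    Orth S p x y := by
  have eb : S.q p1 (x + y) = S.q p1 y := by rw [add_comm, qr h1x]
  have eb' : S.q p2 (x + y) = S.q p2 x := qr h2y
  obtain ⟨θ, hθ, k1, k2⟩ := X.aff (w := x + y) h2 (by rw [eb']; exact h2x)
  -- `X_θ = X_x`
  have s1 : ∀ g, C S p g → C S g θ → C S g x := by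
    intro g hg hgθ
    have := X.atomT hx h2 (h2.add hg) h2x (by rw [← eb', k1, ql hgθ])
    exact this.of_eq (eo (by abel_nf <;> simp only [ch2, ch3, ch4, ch5, ch6, add_zero, zero_add])) rfl
  have s2 : ∀ g, C S p g → C S g x → C S g θ := by
    intro g hg hgx
    have := k2 (p2 + g) x (h2.add hg) (by rw [eb', ql hgx])
    exact this.of_eq (eo (by abel_nf <;> simp only [ch2, ch3, ch4, ch5, ch6, add_zero, zero_add])) rfl
  have h1θ : C S p1 θ := s2 p1 h1 h1x
  have e2 : S.q p1 y = S.q p1 (x + y + θ) := by rw [qr h1θ, eb]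
  apply orth_mono (X.orth_th hθ) s1
  intro g hg hgz
  have := X.atomT hy h1 (h1.add hg) h1y (e2.trans (ql hgz).symm)
  exact this.of_eq (eo (by abel_nf <;> simp only [ch2, ch3, ch4, ch5, ch6, add_zero, zero_add])) rfl

/-- `I_x ∩ I_(y+z) = 0` for pairwise orthogonal elements -/
theorem ind_meet {x y z g f : V} (hxy : Orth S p x y) (hxz : Orth S p x z) (hyz : Orth S p y z)
    (hg : C S p g) (hf : C S p f) (h : S.q g x = S.q f (y + z)) : C S g x := by
  by_contra hb
  obtain ⟨θ, hθ, k1, k2⟩ := X.aff (w := y + z) hf (by rw [← h]; exact hb)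
  obtain ⟨k, hk, hk'⟩ := X.th_split hyz hθ
  have hok : Orth S p k (θ + k) := orth_mono hyz (fun g hg h => X.thA hg h hk)
    (fun g hg h => X.thA hg h hk')
  have s0 : ∀ g', C S p g' → C S g' x → C S g' θ := by
    intro g' hg' h'
    have a1 := k2 g x hg h.symm
    have a2 := k2 (g + g') x (hg.add hg') (by rw [← h, ql h'])
    exact (a1.add' a2).of_eq (eo (by abel_nf <;> simp only [ch2, ch3, ch4, ch5, ch6, add_zero, zero_add])) rfl
  have s1 : ∀ g', C S p g' → C S g' x → C S g' k ∧ C S g' (θ + k) := by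
    intro g' hg' h'
    exact X.orth_split hok hg' ((s0 g' hg' h').of_eq rfl (eo (by abel_nf <;> simp only [ch2, ch3, ch4, ch5, ch6, add_zero, zero_add])))
  have c1 : C S p k := by
    obtain ⟨m, hm, h1, h2⟩ := hxy p (X.self p)
    exact ((s1 m hm h1).1.add' (X.thA ((X.self p).add hm) h2 hk)).of_eq (eo (by abel_nf <;> simp only [ch2, ch3, ch4, ch5, ch6, add_zero, zero_add])) rfl
  have c2 : C S p (θ + k) := by
    obtain ⟨m, hm, h1, h2⟩ := hxz p (X.self p)
    exact ((s1 m hm h1).2.add' (X.thA ((X.self p).add hm) h2 hk')).of_eq (eo (by abel_nf <;> simp only [ch2, ch3, ch4, ch5, ch6, add_zero, zero_add])) rfl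
  have c3 : C S p θ := (c1.add c2).of_eq rfl (eo (by abel_nf <;> simp only [ch2, ch3, ch4, ch5, ch6, add_zero, zero_add]))
  apply hb
  show S.q g x = S.z
  rw [h, k1]
  exact X.cc hf c3

omit [Finite V] in
/-- a common shift for orthogonal elements -/
theorem shift {z s : V} (h : Orth S p z s) : ∃ h, C S p h ∧ C S (z + h) (s + h) := by
  obtain ⟨v, hpv, hz, hs⟩ := orth_p (X.self p) h
  have e1 : S.q (p + z + s) (p + v) = S.q s (p + v) := by
    apply q_eq'
    exact (((X.self p).add hpv).add' hz.symm).of_eq (eo (by abel_nf <;> simp only [ch2, ch3, ch4, ch5, ch6, add_zero, zero_add])) rfl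
  have e2 : S.q s (p + v) = S.q p s := by
    rw [S.symm s]
    exact q_eq' (hs.of_eq (eo (by abel_nf <;> simp only [ch2, ch3, ch4, ch5, ch6, add_zero, zero_add])) rfl)
  obtain ⟨t, h1, h2, h3⟩ := link (e1.trans e2)
  refine ⟨s + t, h2, ?_⟩
  have h4 : C S (z + s) t := h3.of_eq (eo (by abel_nf <;> simp only [ch2, ch3, ch4, ch5, ch6, add_zero, zero_add])) rfl
  exact (h4.add' (X.self t)).of_eq (eo (by abel_nf <;> simp only [ch2, ch3, ch4, ch5, ch6, add_zero, zero_add])) (eo (by abel_nf <;> simp only [ch2, ch3, ch4, ch5, ch6, add_zero, zero_add]))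

omit [Finite V] in
/-- the shift can be chosen for two partners at once -/
theorem shift2 {y z s hy hz : V} (hyz : Orth S p y z) (h1 : C S p hy) (h2 : C S p hz) :
    ∃ f, C S p f ∧ C S (f + hy) y ∧ C S (f + hz) z := by
  obtain ⟨m, hm, a1, a2⟩ := hyz (hy + hz) (h1.add h2)
  exact ⟨hy + m, h1.add hm, a1.of_eq (eo (by abel_nf <;> simp only [ch2, ch3, ch4, ch5, ch6, add_zero, zero_add])) rfl, a2.of_eq (eo (by abel_nf <;> simp only [ch2, ch3, ch4, ch5, ch6, add_zero, zero_add])) rfl⟩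

end Com

end Pool.Agent.ETCE
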