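import Pool.Agent.ETCE.Graph

/-!
# Theorem R2 of ETC-99A (helper99): a tripartite friendship theorem
-/

set_option autoImplicit false
set_option linter.unusedSimpArgs false
set_option linter.unusedVariables false
set_option linter.unusedSectionVars false

namespace Pool.Agent.ETCE

open Pool.Agent.Helper58.PLine (QData)
open Pool.Agent.ETCP
open Finset

variable {V Q : Type} [AddCommGroup V] [Module (ZMod 2) V]
variable {S : QData V Q} {π : V →ₗ[ZMod 2] E}

namespace Rk2

theorem card_coset {M : Type} [AddCommGroup M] [Module (ZMod 2) M] [Fintype M] (P : M → Prop)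
    [DecidablePred P] (U : Submodule (ZMod 2) M) (m : M) (h : ∀ b, P b ↔ b + m ∈ U) :
    (univ.filter P).card = Nat.card U := by
  classical
  rw [Nat.card_eq_fintype_card, Fintype.card_subtype]
  apply Finset.card_bij (fun b _ => b + m)
  · intro b hb
    rw [mem_filter] at *
    exact ⟨mem_univ _, (h b).1 hb.2⟩
  · intro a _ b _ hab
    exact add_right_cancel hab
  · intro b hb
    rw [mem_filter] at hb
    refine ⟨b + m, ?_, Pool.Agent.Helper58.PLine.add_self_add b m⟩
    rw [mem_filter]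
    refine ⟨mem_univ _, (h _).2 ?_⟩
    rw [Pool.Agent.Helper58.PLine.add_self_add b m]
    exact hb.2

section fin

variable {X : Rk2 S π} {c : Q} [Fintype (V ⧸ X.T)]

open Classical in
/-- number of neighbours of colour `j` -/
noncomputable def deg (X : Rk2 S π) [Fintype (V ⧸ X.T)] (c : Q) (a : V ⧸ X.T) (j : E) : ℕ :=
  (univ.filter (fun b : V ⧸ X.T => X.Adj c a b ∧ X.pb b = j)).card

open Classical in
/-- the classes of colour `i` -/
noncomputable def NN (X : Rk2 S π) [Fintype (V ⧸ X.T)] (c : Q) (i : E) : Finset (V ⧸ X.T) :=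
  univ.filter (fun b : V ⧸ X.T => X.Nd c b ∧ X.pb b = i)

theorem mem_NN {i : E} {b : V ⧸ X.T} : b ∈ NN X c i ↔ X.Nd c b ∧ X.pb b = i := by
  classical
  unfold NN
  rw [mem_filter]
  exact ⟨fun h => h.2, fun h => ⟨mem_univ _, h⟩⟩

variable (hc : ∃ w1 w2, S.q w1 w2 = c ∧ dl (π w1) (π w2) = 1)
include hc

theorem deg_eq {x y0 : V} (h : S.q x y0 = c) {j : E} (hj : j ≠ 0) (hjx : j ≠ π x) :
    deg X c (X.T.mkQ x) j = Nat.card (KX X x) := by
  classical
  obtain ⟨y, hy, hyj⟩ := exists_col hc X h hj hjx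
  unfold deg
  apply card_coset _ _ (X.T.mkQ y)
  intro b
  rw [← coset hc X hy b, hyj]

theorem nd_col {a : V ⧸ X.T} (ha : X.Nd c a) : X.pb a ≠ 0 := by
  obtain ⟨x, y, rfl, h⟩ := ha
  rw [pb_mk]
  exact (dl_one.1 (dc hc X h)).1

theorem deg_le {a a' : V ⧸ X.T} (ha : X.Nd c a) (ha' : X.Nd c a') (haa : X.pb a = X.pb a')
    {j k : E} (hj : j ≠ 0) (hja : j ≠ X.pb a) (hk : k = X.pb a + j) :
    deg X c a j ≤ deg X c a' k := by
  classical
  have ha0 := nd_col hc ha
  -- the map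
  have hex : ∀ b : V ⧸ X.T, X.Adj c a b ∧ X.pb b = j →
      ∃ z, (X.Adj c a' z ∧ X.pb z = k) ∧ X.Adj c b z := by
    rintro b ⟨h1, h2⟩
    obtain ⟨z, h3, h4⟩ := exists_common hc (adj_nd (adj_symm h1)) ha'
    refine ⟨z, ⟨h4, ?_⟩, h3⟩
    obtain ⟨-, hz0, hbz⟩ := dl_one.1 (adj_dl hc h3)
    obtain ⟨-, -, haz⟩ := dl_one.1 (adj_dl hc h4)
    rw [← haa] at haz
    rw [h2] at hbz
    have f : ∀ i j z : E, i ≠ 0 → j ≠ 0 → j ≠ i → z ≠ 0 → j ≠ z → i ≠ z → z = i + j := by decide
    rw [hk]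
    exact f _ _ _ ha0 hj hja hz0 hbz haz
  unfold deg
  apply Finset.card_le_card_of_injOn (fun b => if h : X.Adj c a b ∧ X.pb b = j then
    (hex b h).choose else b)
  · intro b hb
    have hb' := (mem_filter.1 (mem_coe.1 hb)).2
    simp only [dif_pos hb']
    rw [coe_filter, Set.mem_ofPred_eq]
    exact ⟨mem_univ _, (hex b hb').choose_spec.1⟩
  · intro b hb b' hb' hbb
    have h1 := (mem_filter.1 (mem_coe.1 hb)).2
    have h2 := (mem_filter.1 (mem_coe.1 hb')).2
    simp only [dif_pos h1, dif_pos h2] at hbb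
    have s1 := (hex b h1).choose_spec
    have s2 := (hex b' h2).choose_spec
    rw [← hbb] at s2
    refine common_unique hc (a := a) (b := (hex b h1).choose) ?_ h1.1 (adj_symm s1.2) h2.1
      (adj_symm s2.2)
    rw [s1.1.2, hk]
    have f : ∀ i j : E, i ≠ 0 → j ≠ 0 → j ≠ i → i ≠ i + j := by decide
    exact f _ _ ha0 hj hja

theorem deg_const {a a' : V ⧸ X.T} (ha : X.Nd c a) (ha' : X.Nd c a') (haa : X.pb a = X.pb a')
    {j k : E} (hj : j ≠ 0) (hja : j ≠ X.pb a) (hk : k ≠ 0) (hka : k ≠ X.pb a) :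
    deg X c a j = deg X c a' k := by
  have key : ∀ (a a' : V ⧸ X.T), X.Nd c a → X.Nd c a' → X.pb a = X.pb a' → ∀ j k : E, j ≠ 0 →
      j ≠ X.pb a → k ≠ 0 → k ≠ X.pb a → deg X c a j ≤ deg X c a' k := by
    intro a a' ha ha' haa j k hj hja hk hka
    have ha0 := nd_col hc ha
    by_cases hjk : k = X.pb a + j
    · exact deg_le hc ha ha' haa hj hja hjk
    · -- `k = j`: change the colour first
      have hkj : k = j := by
        rcases col3 ha0 hj hja.symm k with h | h | h | h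
        · exact absurd h hk
        · exact absurd h hka
        · exact h
        · exact absurd h hjk
      rw [hkj]
      have g : ∀ i j : E, i ≠ 0 → j ≠ 0 → j ≠ i → i + j ≠ 0 ∧ i + j ≠ i ∧ j = i + (i + j) := by
        decide
      obtain ⟨g1, g2, g3⟩ := g _ _ ha0 hj hja
      refine (deg_le hc ha ha rfl hj hja rfl).trans ?_
      exact deg_le hc ha ha' haa g1 g2 g3
  apply le_antisymm
  · exact key a a' ha ha' haa j k hj hja hk hka
  · exact key a' a ha' ha haa.symm k j hk (by rw [← haa]; exact hka) hj (by rw [← haa]; exact hja)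

/-- double counting -/
theorem card_NN {b : V ⧸ X.T} (hb : X.Nd c b) {i : E} (hi : i ≠ 0) (hib : i ≠ X.pb b) :
    (NN X c (X.pb b + i)).card =
      ∑ a ∈ (open Classical in univ.filter (fun a : V ⧸ X.T => X.Adj c b a ∧ X.pb a = i)),
        deg X c a (X.pb b + i) := by
  classical
  have hb0 := nd_col hc hb
  have g : ∀ i j : E, j ≠ 0 → i ≠ 0 → i ≠ j → j + i ≠ 0 ∧ j ≠ j + i ∧ j + i ≠ i := by decide
  obtain ⟨g1, g2, g3⟩ := g _ _ hb0 hi hib
  have hex : ∀ z : V ⧸ X.T, z ∈ NN X c (X.pb b + i) → ∃ a, (X.Adj c b a ∧ X.pb a = i) ∧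
      X.Adj c z a := by
    intro z hz
    rw [mem_NN] at hz
    obtain ⟨a, h1, h2⟩ := exists_common hc hb hz.1
    refine ⟨a, ⟨h1, ?_⟩, h2⟩
    obtain ⟨-, ha0, hba⟩ := dl_one.1 (adj_dl hc h1)
    obtain ⟨-, -, hza⟩ := dl_one.1 (adj_dl hc h2)
    rw [hz.2] at hza
    rcases col3 hb0 hi hib.symm (X.pb a) with h | h | h | h
    · exact absurd h ha0
    · exact absurd h.symm hba
    · exact h
    · exact absurd h.symm hza
  set f : (V ⧸ X.T) → (V ⧸ X.T) := fun z => if h : z ∈ NN X c (X.pb b + i) then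
    (hex z h).choose else z with hf
  have hfs : ∀ z (h : z ∈ NN X c (X.pb b + i)), (X.Adj c b (f z) ∧ X.pb (f z) = i) ∧
      X.Adj c z (f z) := by
    intro z h
    simp only [hf, dif_pos h]
    exact (hex z h).choose_spec
  rw [Finset.card_eq_sum_card_fiberwise (f := f)
    (t := univ.filter (fun a : V ⧸ X.T => X.Adj c b a ∧ X.pb a = i))]
  · apply Finset.sum_congr
    · ext a; simp
    intro a ha
    have ha' := (mem_filter.1 ha).2
    unfold deg
    congr 1
    ext z
    rw [mem_filter, mem_filter]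
    constructor
    · rintro ⟨h1, h2⟩
      have h3 := hfs z h1
      rw [h2] at h3
      exact ⟨mem_univ _, adj_symm h3.2, (mem_NN.1 h1).2⟩
    · rintro ⟨-, h1, h2⟩
      have h3 : z ∈ NN X c (X.pb b + i) := mem_NN.2 ⟨adj_nd (adj_symm h1), h2⟩
      refine ⟨h3, ?_⟩
      have h4 := hfs z h3
      refine common_unique hc (a := b) (b := z) ?_ h4.1.1 h4.2 ha'.1 (adj_symm h1)
      rw [h2]
      exact g2
  · intro z hz
    rw [coe_filter, Set.mem_ofPred_eq]
    exact ⟨mem_univ _, (hfs z hz).1⟩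

end fin

end Rk2

end Pool.Agent.ETCE
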