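import Pool.Agent.ETCE.Count

/-!
# `Theta_y`, orthogonal sums (helper98, note 1255), in Lean (helper29)
-/

set_option autoImplicit false
set_option linter.unusedSimpArgs false
set_option linter.unnecessarySeqFocus false
set_option linter.unusedSectionVars false
set_option linter.unusedVariables false

namespace Pool.Agent.ETCE

open Pool.Agent.Helper58.PLine (QData)
open Pool.Agent.ETCP

variable {V Q : Type} [AddCommGroup V] [Module (ZMod 2) V] {S : QData V Q}

namespace Com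

variable {p : V} (X : Com S p)
include X

/-- `T_p θ = T_j y`: then `T_j θ = T_p θ`, and `T_j (y + θ) = 0` -/
theorem th_e {j y θ : V} (hj : C S p j) (h : S.q p θ = S.q j y) :
    C S (p + j) θ ∧ C S j (y + θ) := by
  obtain ⟨t, t1, t2, t3⟩ := link h
  have h1 : C S (p + j) (θ + t) := X.cc ((C.self X.he p).add hj) t1
  have h2 : C S j (θ + t) := X.cc hj t1
  exact ⟨(h1.add t3).of_eq rfl (eo (by abel_nf <;> simp only [ch2, ch3, ch4, ch5, ch6, add_zero, zero_add])), (t2.add h2).of_eq rfl (eo (by abel_nf <;> simp only [ch2, ch3, ch4, ch5, ch6, add_zero, zero_add]))⟩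

omit X in
theorem th_of {e y θ : V} (he : C S p e) (h1 : C S (p + e) θ) (h2 : C S e (y + θ)) :
    S.q p θ = S.q e y := by
  rw [q_eq' (h1.of_eq (eo (by abel_nf <;> simp only [ch2, ch3, ch4, ch5, ch6, add_zero, zero_add])) rfl : C S (p + e) θ), q_eq (h2.of_eq rfl (eo (by abel_nf <;> simp only [ch2, ch3, ch4, ch5, ch6, add_zero, zero_add])) : C S e (θ + y))]

/-- (A) -/
theorem thA {e y θ : V} (he : C S p e) (hy : C S e y) (hθ : Th S p y θ) : C S e θ := by
  obtain ⟨j, hj, h⟩ := hθ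
  obtain ⟨h1, -⟩ := X.th_e hj h
  obtain ⟨h2, -⟩ := X.th_e (hj.add he) (h.trans (ql hy).symm)
  exact (h1.add' h2).of_eq (eo (by abel_nf <;> simp only [ch2, ch3, ch4, ch5, ch6, add_zero, zero_add])) rfl

/-- (M1) -/
theorem m1 {y θ f : V} (hθ : Th S p y θ) (hf : C S p f) : ∃ e, C S p e ∧ S.q f θ = S.q e y := by
  obtain ⟨j, hj, h⟩ := hθ
  have e1 : S.q p θ = S.q (y + f) j := by rw [h, ql (X.cc hf hj), S.symm]
  have e0 : S.q p θ = S.q y j := by rw [h, S.symm]
  obtain ⟨t, t1, t2, t3⟩ := link e1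
  obtain ⟨u, u1, u2, u3⟩ := link e0
  -- `t = θ + k`, `u = θ + l`
  have a1 : S.q (y + f) θ = S.q y (j + (θ + t)) := by
    have : S.q (y + f) θ = S.q (y + f) (j + (θ + t)) := q_eq (t2.of_eq rfl (eo (by abel_nf <;> simp only [ch2, ch3, ch4, ch5, ch6, add_zero, zero_add])))
    rw [this, ql (X.cc hf (hj.add t1))]
  have a0 : S.q y θ = S.q y (j + (θ + u)) := q_eq (u2.of_eq rfl (eo (by abel_nf <;> simp only [ch2, ch3, ch4, ch5, ch6, add_zero, zero_add])))
  refine ⟨(θ + t) + (θ + u), t1.add u1, ?_⟩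
  have b1 : S.q θ (y + f) = S.q y (j + (θ + t)) := by rw [S.symm, a1]
  have b0 : S.q θ y = S.q y (j + (θ + u)) := by rw [S.symm, a0]
  have := qadd b1 b0
  rw [show y + f + y = f from (eo (by abel_nf <;> simp only [ch2, ch3, ch4, ch5, ch6, add_zero, zero_add])), show j + (θ + t) + (j + (θ + u)) = (θ + t) + (θ + u) from (eo (by abel_nf <;> simp only [ch2, ch3, ch4, ch5, ch6, add_zero, zero_add]))]
    at this
  rw [S.symm, this, S.symm]

omit X in
theorem th_self (y : V) (hp : C S p p) : Th S p y y := ⟨p, hp, rfl⟩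

omit X in
theorem th_E {y k : V} (hk : C S p k) : Th S p y k :=
  ⟨0, C.zero p, by rw [show S.q p k = S.z from hk, show S.q 0 y = S.z from C.zero' (S := S) y]⟩

omit X in
theorem th_add {y k l : V} (hk : Th S p y k) (hl : Th S p y l) : Th S p y (k + l) := by
  obtain ⟨e, he, h⟩ := hk
  obtain ⟨f, hf, h'⟩ := hl
  refine ⟨e + f, he.add hf, ?_⟩
  rw [S.symm (e + f) y]
  exact qadd (by rw [h, S.symm]) (by rw [h', S.symm])

theorem th_trans {y k l : V} (hk : Th S p y k) (hl : Th S p k l) : Th S p y l := by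
  obtain ⟨e, he, h⟩ := hl
  obtain ⟨f, hf, h'⟩ := X.m1 hk he
  exact ⟨f, hf, h.trans h'⟩

theorem th_compl {y k : V} (hk : Th S p y k) : Th S p y (y + k) :=
  th_add (th_self y (X.self p)) hk

variable [Finite V]

/-- (X4) -/
theorem x4 {e z s h h' : V} (he : C S p e) (hz : C S (p + e) z) (hs : C S e s)
    (hh : C S p h) (hh' : C S p h') (hb : S.q h z = S.q h' s) : C S h z ∧ C S h' s := by
  obtain ⟨k, hk, h1⟩ := X.lb hh hb.symm
  have hpe : C S p (p + e) := (X.self p).add he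
  have h2 : C S (p + e) k := X.thA hpe hz hk
  have e1 : S.q (h' + (p + e)) k = S.q (h' + e) s := by
    rw [ql h2, ql hs, q_eq (h1.of_eq rfl (eo (by abel_nf <;> simp only [ch2, ch3, ch4, ch5, ch6, add_zero, zero_add])) : C S h' (k + s))]
  obtain ⟨t, t1, t2, t3⟩ := link e1
  have h3 : C S p t := t3.of_eq (eo (by abel_nf <;> simp only [ch2, ch3, ch4, ch5, ch6, add_zero, zero_add])) rfl
  have h4 : C S (h' + e) t := X.cc (hh'.add he) h3
  have h5 : C S (h' + e) s := (t2.add h4).of_eq rfl (eo (by abel_nf <;> simp only [ch2, ch3, ch4, ch5, ch6, add_zero, zero_add]))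
  have h6 : C S h' s := (h5.add' hs).of_eq (eo (by abel_nf <;> simp only [ch2, ch3, ch4, ch5, ch6, add_zero, zero_add])) rfl
  refine ⟨?_, h6⟩
  show S.q h z = S.z
  rw [hb]
  exact h6

/-- `X_z + X_s = V_p` for `z ∈ V_(e+p)`, `s ∈ V_e` -/
theorem orth_of {e z s : V} (he : C S p e) (hz : C S (p + e) z) (hs : C S e s) :
    Orth S p z s := by
  intro g hg
  have h1 : Th S p (z + s) z := by
    refine ⟨e, he, ?_⟩
    rw [qr hs, q_eq' (hz : C S (p + e) z)]
  obtain ⟨m, hm, h2⟩ := X.m1 h1 hg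
  have a1 : S.q m (z + s) = S.q z g := by rw [← h2, S.symm]
  have a2 : S.q m z = S.q z m := S.symm _ _
  have a3 := qadd a1 a2
  rw [show z + s + z = s from (eo (by abel_nf <;> simp only [ch2, ch3, ch4, ch5, ch6, add_zero, zero_add])), S.symm z] at a3
  obtain ⟨b1, b2⟩ := X.x4 he hz hs (hg.add hm) hm a3.symm
  exact ⟨g + m, hg.add hm, b1, b2.of_eq (eo (by abel_nf <;> simp only [ch2, ch3, ch4, ch5, ch6, add_zero, zero_add])) rfl⟩

omit [Finite V] in
omit X in
theorem orth_p (hp : C S p p) {z s : V} (h : Orth S p z s) :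
    ∃ e, C S p e ∧ C S (p + e) z ∧ C S e s := by
  obtain ⟨m, hm, h1, h2⟩ := h p hp
  exact ⟨p + m, hp.add hm, h1.of_eq (eo (by abel_nf <;> simp only [ch2, ch3, ch4, ch5, ch6, add_zero, zero_add])) rfl, h2⟩

omit [Finite V] in
omit X in
theorem orth_symm {z s : V} (h : Orth S p z s) : Orth S p s z := by
  intro g hg
  obtain ⟨m, hm, h1, h2⟩ := h g hg
  exact ⟨g + m, hg.add hm, h2, h1.of_eq (eo (by abel_nf <;> simp only [ch2, ch3, ch4, ch5, ch6, add_zero, zero_add])) rfl⟩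

/-- `I_z ∩ I_s = 0` for orthogonal `z`, `s` -/
theorem orth_meet {z s h h' : V} (ho : Orth S p z s) (hh : C S p h) (hh' : C S p h')
    (hb : S.q h z = S.q h' s) : C S h z ∧ C S h' s := by
  obtain ⟨e, he, h1, h2⟩ := orth_p (X.self p) ho
  exact X.x4 he h1 h2 hh hh' hb

/-- `X_(z+s) = X_z ∩ X_s` for orthogonal `z`, `s` -/
theorem orth_split {z s h : V} (ho : Orth S p z s) (hh : C S p h) (hc : C S h (z + s)) :
    C S h z ∧ C S h s := X.orth_meet ho hh hh (q_eq hc)

omit [Finite V] in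
omit X in
theorem orth_mono {z s z' s' : V} (ho : Orth S p z s)
    (hz : ∀ g, C S p g → C S g z → C S g z') (hs : ∀ g, C S p g → C S g s → C S g s') :
    Orth S p z' s' := by
  intro g hg
  obtain ⟨m, hm, h1, h2⟩ := ho g hg
  exact ⟨m, hm, hz m hm h1, hs _ (hg.add hm) h2⟩

/-- the orthogonal decomposition given by an element of `Theta_y` -/
theorem orth_th {y θ : V} (h : Th S p y θ) : Orth S p θ (y + θ) := by
  obtain ⟨e, he, h'⟩ := h
  obtain ⟨h1, h2⟩ := X.th_e he h'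
  exact X.orth_of he h1 h2

omit [Finite V] in
theorem th_orth {y z : V} (h : Orth S p y z) : Th S p (y + z) y := by
  obtain ⟨e, he, h1, h2⟩ := orth_p (X.self p) h
  exact ⟨e, he, th_of he h1 (h2.of_eq rfl (eo (by abel_nf <;> simp only [ch2, ch3, ch4, ch5, ch6, add_zero, zero_add])))⟩

/-- splitting of `Theta` (from (BA)) -/
theorem th_split {y z θ : V} (ho : Orth S p y z) (hθ : Th S p (y + z) θ) :
    ∃ k, Th S p y k ∧ Th S p z (θ + k) := by
  obtain ⟨e, he, h⟩ := hθ
  obtain ⟨e1, he1, h1, h2⟩ := orth_p (X.self p) ho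
  obtain ⟨a1, a2⟩ := X.th_e he h
  have b0 : S.q p y = S.q e1 (y + z) := th_of he1 h1 (h2.of_eq rfl (eo (by abel_nf <;> simp only [ch2, ch3, ch4, ch5, ch6, add_zero, zero_add])))
  -- additivity
  have c0 : S.q p (θ + y) = S.q (y + z) (e + e1) :=
    qadd (by rw [h, S.symm]) (by rw [b0, S.symm])
  rw [S.symm (y + z)] at c0
  obtain ⟨-, c2⟩ := X.th_e (he.add he1) c0
  -- `T_(e1) θ = T_e y`
  have d1 : S.q e1 (z + θ) = S.q e (z + θ) := (q_eq' (c2.of_eq (eo (by abel_nf <;> simp only [ch2, ch3, ch4, ch5, ch6, add_zero, zero_add])) (eo (by abel_nf <;> simp only [ch2, ch3, ch4, ch5, ch6, add_zero, zero_add])))).symm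
  have d2 : S.q e1 (z + θ) = S.q e1 θ := q_eq (h2.of_eq rfl (eo (by abel_nf <;> simp only [ch2, ch3, ch4, ch5, ch6, add_zero, zero_add])))
  have d3 : S.q e (z + θ) = S.q e y := q_eq (a2.of_eq rfl (eo (by abel_nf <;> simp only [ch2, ch3, ch4, ch5, ch6, add_zero, zero_add])))
  have d4 : S.q e y = S.q e1 θ := by rw [← d3, ← d1, d2]
  obtain ⟨k, hk, hk'⟩ := X.lb he1 d4
  have hpe : C S p (p + e) := (X.self p).add he
  have k1 : C S (p + e) k := X.thA hpe a1 hk
  have k2 : S.q p k = S.q e y := th_of he k1 hk'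
  refine ⟨k, ⟨e, he, k2⟩, e, he, ?_⟩
  have k3 : S.q p (θ + k) = S.q e ((y + z) + y) :=
    qadd (by rw [h]) k2
  rwa [show y + z + y = z from (eo (by abel_nf <;> simp only [ch2, ch3, ch4, ch5, ch6, add_zero, zero_add]))] at k3

end Com

end Pool.Agent.ETCE
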