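import Pool.Agent.ETCP.Basic

/-!
# Forms of rank two (after helper99, ETC-99A)

`π : V → F_2 × F_2` is a linear map such that `π a`, `π b` are dependent for all commuting
`a, b`.  For `z` in the kernel of `π` we look at the colours of the elements commuting with `z`.
-/

set_option autoImplicit false
set_option linter.unusedSimpArgs false
set_option linter.unusedVariables false
set_option linter.unusedSectionVars false

namespace Pool.Agent.ETCE

open Pool.Agent.Helper58.PLine (QData)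
open Pool.Agent.ETCP

/-- the plane of colours -/
abbrev E := ZMod 2 × ZMod 2

/-- the determinant form on the plane of colours -/
def dl (a b : E) : ZMod 2 := a.1 * b.2 + a.2 * b.1

theorem dl_zero (a : E) : dl 0 a = 0 := by revert a; decide

theorem dl_self (a : E) : dl a a = 0 := by revert a; decide

theorem dl_comm (a b : E) : dl a b = dl b a := by revert a b; decide

theorem dl_add (a b b' : E) : dl a (b + b') = dl a b + dl a b' := by revert a b b'; decide

theorem dl_one {a b : E} : dl a b = 1 ↔ a ≠ 0 ∧ b ≠ 0 ∧ a ≠ b := by revert a b; decide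

theorem dl_zero_iff {a b : E} : dl a b = 0 ↔ a = 0 ∨ b = 0 ∨ a = b := by revert a b; decide

theorem col3 {i j : E} (hi : i ≠ 0) (hj : j ≠ 0) (hij : i ≠ j) (e : E) :
    e = 0 ∨ e = i ∨ e = j ∨ e = i + j := by revert i j e; decide

theorem exists_other {i : E} (hi : i ≠ 0) : ∃ j : E, j ≠ 0 ∧ j ≠ i := by revert i; decide

theorem third_ne {i j : E} (hi : i ≠ 0) (hj : j ≠ 0) (hij : i ≠ j) :
    i + j ≠ 0 ∧ i + j ≠ i ∧ i + j ≠ j ∧ j + (i + j) = i ∧ i + (i + j) = j := by
  revert i j; decide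

variable {V Q : Type} [AddCommGroup V] [Module (ZMod 2) V]

/-- `π` defines a form of rank two which vanishes on commuting pairs, and `π (-1) = 0` -/
structure Rk2 (S : QData V Q) (π : V →ₗ[ZMod 2] E) : Prop where
  pe : π S.e = 0
  sur : Function.Surjective π
  hd : ∀ a b, C S a b → dl (π a) (π b) = 0

variable {S : QData V Q} {π : V →ₗ[ZMod 2] E}

/-- `z` lies in the kernel and commutes with an element of colour `i` -/
def A (S : QData V Q) (π : V →ₗ[ZMod 2] E) (i : E) (z : V) : Prop :=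
  π z = 0 ∧ ∃ w, π w = i ∧ C S z w

theorem A.add {i j : E} {z : V} (h : A S π i z) (h' : A S π j z) : A S π (i + j) z := by
  obtain ⟨h0, w, hw, hc⟩ := h
  obtain ⟨-, w', hw', hc'⟩ := h'
  exact ⟨h0, w + w', by rw [map_add, hw, hw'], hc.add hc'⟩

theorem A.zero {z : V} (h : π z = 0) : A S π 0 z := ⟨h, 0, map_zero π, C.zero z⟩

/-- only one colour occurs -/
def Ti (S : QData V Q) (π : V →ₗ[ZMod 2] E) (i : E) (z : V) : Prop :=
  A S π i z ∧ ∀ j, j ≠ 0 → j ≠ i → ¬ A S π j z

theorem addq2 {g k a b : V} (h : S.q g a = S.q k b) : S.q (g + k) a = S.q k (a + b) := by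
  obtain ⟨t, h1, h2, h3⟩ := link h
  have e1 : S.q (g + k) a = S.q (g + k) (a + t) :=
    q_eq (h3.of_eq rfl (eo (by abel_nf; simp [ch2, ch3, ch4])))
  have e2 : S.q (g + k) (a + t) = S.q k (a + t) :=
    q_eq' (h1.of_eq (eo (by abel_nf; simp [ch2, ch3, ch4])) rfl)
  have e3 : S.q k (a + t) = S.q k (a + b) :=
    q_eq (h2.of_eq rfl (eo (by abel_nf; simp [ch2, ch3, ch4])))
  rw [e1, e2, e3]

namespace Rk2

variable (X : Rk2 S π)
include X

/-- the form is well defined on the values of `q` -/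
theorem dq {a b a' b' : V} (h : S.q a b = S.q a' b') : dl (π a) (π b) = dl (π a') (π b') := by
  obtain ⟨t, h1, h2, h3⟩ := link h
  have e1 := X.hd _ _ h1
  have e2 := X.hd _ _ h2
  have e3 := X.hd _ _ h3
  rw [map_add, dl_add] at e1 e2
  rw [map_add, dl_comm, dl_add, dl_comm, dl_comm (π t)] at e3
  have f : ∀ x y z w : ZMod 2, x + z = 0 → y + w = 0 → z + w = 0 → x = y := by decide
  exact f _ _ _ _ e1 e2 e3

theorem R1 {i j : E} (hi : i ≠ 0) (hj : j ≠ 0) (hij : i ≠ j) {z1 z2 : V} (h1 : A S π i z1)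
    (h2 : A S π j z2) : A S π i (z1 + z2) ∨ A S π j (z1 + z2) := by
  obtain ⟨p1, w1, c1, k1⟩ := h1
  obtain ⟨p2, w2, c2, k2⟩ := h2
  have pz : π (z1 + z2) = 0 := by rw [map_add, p1, p2, add_zero]
  -- the common value
  have e1 : S.q (z1 + z2) w1 = S.q z2 w1 :=
    q_eq' (k1.of_eq (eo (by abel_nf; simp [ch2, ch3, ch4])) rfl)
  have e2 : S.q (w1 + w2) z2 = S.q z2 w1 := by
    rw [S.symm z2 w1]
    exact q_eq' (k2.symm.of_eq (eo (by abel_nf; simp [ch2, ch3, ch4])) rfl)
  obtain ⟨s, g1, g2, g3⟩ := link (e1.trans e2.symm)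
  -- colour of `s`
  have e3 := X.hd _ _ g2
  rw [map_add, map_add, c1, c2, p2, zero_add, dl_zero_iff] at e3
  have t := third_ne hi hj hij
  have e4 : π s = 0 ∨ π s = i + j := by
    rcases e3 with h | h | h
    · exact absurd h t.1
    · exact Or.inl h
    · exact Or.inr h.symm
  rcases e4 with h | h
  · left
    exact ⟨pz, w1 + s, by rw [map_add, c1, h, add_zero], g1⟩
  · right
    exact ⟨pz, w1 + s, by rw [map_add, c1, h]; exact t.2.2.2.2, g1⟩

/-- the subgroup `T` of the elements of the kernel which commute with elements of all colours -/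
def T : Submodule (ZMod 2) V where
  carrier := {z | ∀ i, A S π i z}
  zero_mem' := by
    intro i
    obtain ⟨w, hw⟩ := X.sur i
    exact ⟨map_zero π, w, hw, C.zero' w⟩
  add_mem' := by
    intro z z' hz hz' i
    by_cases hi : i = 0
    · rw [hi]
      exact A.zero (by rw [map_add, (hz 0).1, (hz' 0).1, add_zero])
    obtain ⟨j, hj, hji⟩ := exists_other hi
    have t := third_ne hi hj hji.symm
    rcases X.R1 hi hj hji.symm (hz i) (hz' j) with h | h
    · exact h
    rcases X.R1 hi t.1 t.2.1.symm (hz i) (hz' (i + j)) with h' | h'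
    · exact h'
    have := h.add h'
    rwa [t.2.2.2.1] at this
  smul_mem' := by
    intro a z hz
    rcases Pool.Agent.Helper58.PLine.zm a with rfl | rfl
    · rw [zero_smul]
      intro i
      obtain ⟨w, hw⟩ := X.sur i
      exact ⟨map_zero π, w, hw, C.zero' w⟩
    · rw [one_smul]; exact hz

theorem mem_T {z : V} : z ∈ X.T ↔ ∀ i, A S π i z := Iff.rfl

theorem mem_T_of {i j : E} (hi : i ≠ 0) (hj : j ≠ 0) (hij : i ≠ j) {z : V} (h : A S π i z)
    (h' : A S π j z) : z ∈ X.T := by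
  intro e
  rcases col3 hi hj hij e with rfl | rfl | rfl | rfl
  · exact A.zero h.1
  · exact h
  · exact h'
  · exact h.add h'

theorem T_ker {z : V} (h : z ∈ X.T) : π z = 0 := (h 0).1

theorem Ti_of {i : E} (hi : i ≠ 0) {z : V} (h : A S π i z) (hT : z ∉ X.T) : Ti S π i z :=
  ⟨h, fun j hj hji h' => hT (X.mem_T_of hi hj hji.symm h h')⟩

theorem Ti_not {i : E} (hi : i ≠ 0) {z : V} (h : Ti S π i z) : z ∉ X.T := by
  intro hT
  obtain ⟨j, hj, hji⟩ := exists_other hi
  exact h.2 j hj hji (hT j)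

theorem Ti_add {i : E} (hi : i ≠ 0) {z t : V} (h : Ti S π i z) (ht : t ∈ X.T) :
    Ti S π i (z + t) := by
  have key : ∀ j, j ≠ 0 → j ≠ i → ¬ A S π j (z + t) := by
    intro j hj hji h'
    have t3 := third_ne hi hj hji.symm
    have e : z + t + t = z := Pool.Agent.Helper58.PLine.add_self_add z t
    rcases X.R1 hj t3.1 t3.2.2.1.symm h' (ht (i + j)) with h4 | h4
    · rw [e] at h4; exact h.2 j hj hji h4
    · rw [e] at h4; exact h.2 _ t3.1 t3.2.1 h4
  obtain ⟨j, hj, hji⟩ := exists_other hi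
  rcases X.R1 hi hj hji.symm h.1 (ht j) with h4 | h4
  · exact ⟨h4, key⟩
  · exact absurd h4 (key j hj hji)

/-- elements of the kernel whose centralizer lies in the kernel -/
theorem T0_add {z t : V} (h0 : π z = 0) (h : ∀ w, C S z w → π w = 0) (ht : t ∈ X.T) :
    ∀ w, C S (z + t) w → π w = 0 := by
  intro w hw
  by_contra hc
  have h1 : A S π (π w) (z + t) := ⟨by rw [map_add, h0, X.T_ker ht, add_zero], w, rfl, hw⟩
  obtain ⟨j, hj, hji⟩ := exists_other hc
  have e : z + t + t = z := Pool.Agent.Helper58.PLine.add_self_add z t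
  rcases X.R1 hc hj hji.symm h1 (ht j) with h4 | h4
  · rw [e] at h4
    obtain ⟨-, w', k1, k2⟩ := h4
    rw [h w' k2] at k1
    exact hc k1.symm
  · rw [e] at h4
    obtain ⟨-, w', k1, k2⟩ := h4
    rw [h w' k2] at k1
    exact hj k1.symm

/-! ### the graph of the value `c` -/

variable {c : Q}

/-- if `v, v'` are common neighbours of `x, y` and of `x, y'` with `y ≡ y'` then `v ≡ v'`. -/
theorem stepA {x y y' v v' : V} (h1 : S.q x v = S.q y v) (h3 : S.q x v' = S.q y' v')
    (h4 : S.q x v = S.q x v') (hd : dl (π x) (π v) = 1) (hxy : π x ≠ π y)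
    (hT : y + y' ∈ X.T) : v + v' ∈ X.T := by
  obtain ⟨hx0, hv0, hxv⟩ := dl_one.1 hd
  obtain ⟨hy0, -, hyv⟩ := dl_one.1 ((X.dq h1).symm.trans hd)
  have hd' : dl (π x) (π v') = 1 := (X.dq h4).symm.trans hd
  obtain ⟨-, hv'0, hxv'⟩ := dl_one.1 hd'
  have hyy : π y' = π y := by
    have := X.T_ker hT
    rw [map_add] at this
    exact (eo this).symm
  obtain ⟨-, -, hyv'⟩ := dl_one.1 ((X.dq h3).symm.trans hd')
  rw [hyy] at hyv'
  have hvv : π (v + v') = 0 := by
    rw [map_add]
    have f : ∀ a b v : E, a ≠ 0 → b ≠ 0 → a ≠ b → v ≠ 0 → a ≠ v → b ≠ v → v = a + b := by decide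
    rw [f _ _ _ hx0 hy0 hxy hv0 hxv hyv, f _ _ _ hx0 hy0 hxy hv'0 hxv' hyv']
    exact ZModModule.add_self _
  have cu : C S x (v + v') := q_eq_iff.1 h4
  have hA : A S π (π x) (v + v') := ⟨hvv, x, rfl, cu.symm⟩
  by_contra hn
  have hTi := X.Ti_of hx0 hA hn
  -- `q (v + v') y' = q (y + y') v`
  have e1 : S.q (v' + v) y' = S.q v (y' + y) := by
    apply addq2
    rw [S.symm v' y', ← h3, ← h4, h1, S.symm]
  have e2 : S.q (v + v') y' = S.q (y + y') v := by
    rw [add_comm v v', e1, S.symm v, add_comm y' y]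
  obtain ⟨s, g1, g2, g3⟩ := link e2
  -- colour of `s`
  have k1 : π (y' + s) = 0 ∨ π (y' + s) = π x := by
    by_contra hk
    push Not at hk
    exact hTi.2 _ hk.1 hk.2 ⟨hvv, y' + s, rfl, g1⟩
  have hTi' := X.Ti_add hx0 hTi hT
  have k2 : π s = 0 ∨ π s = π x := by
    by_contra hk
    push Not at hk
    exact hTi'.2 _ hk.1 hk.2 ⟨by rw [map_add, hvv, X.T_ker hT, add_zero], s, rfl, g3⟩
  rw [map_add, hyy] at k1
  have f : ∀ a b s : E, a ≠ 0 → b ≠ 0 → a ≠ b → (b + s = 0 ∨ b + s = a) → (s = 0 ∨ s = a) →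
    False := by decide
  exact f _ _ _ hx0 hy0 hxy k1 k2

/-- adjacent classes: every representative has a neighbour in the other class. -/
theorem stepB {x x' y y0 : V} (hd : dl (π x) (π y) = 1) (hT : x + x' ∈ X.T)
    (hx' : S.q x' y0 = S.q x y) : ∃ y', S.q x' y' = S.q x y ∧ y + y' ∈ X.T := by
  obtain ⟨hx0, hy0, hxy⟩ := dl_one.1 hd
  have cxx : C S x (x + S.e) := S.diag x
  have cyy : C S y (y + S.e) := S.diag y
  have e1 : S.q (x + y + S.e) x = S.q x y := by
    rw [S.symm x y]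
    exact q_eq' (cxx.symm.of_eq (eo (by abel_nf; simp [ch2, ch3, ch4])) rfl)
  have e2 : S.q (x + y + S.e) y = S.q x y :=
    q_eq' (cyy.symm.of_eq (eo (by abel_nf; simp [ch2, ch3, ch4])) rfl)
  obtain ⟨y', g1, g2⟩ := S.link _ _ _ _ (hx'.trans e1.symm)
  refine ⟨y', g1.symm.trans hx', ?_⟩
  have h0 : π (x + y + S.e) ≠ π x := by
    rw [map_add, map_add, X.pe, add_zero]
    intro h
    exact hy0 (by have := congrArg (fun t => t + π x) h; simpa [add_comm, add_assoc] using this)
  refine X.stepA (x := x + y + S.e) (y := x) (y' := x') (v := y) (v' := y') ?_ ?_ ?_ ?_ h0 hT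
  · exact e2
  · exact g2.symm.trans (e1.trans (hx'.symm.trans g1))
  · exact e2.trans (e1.symm.trans g2)
  · rw [map_add, map_add, X.pe, add_zero]
    have f : ∀ a b : E, a ≠ 0 → b ≠ 0 → a ≠ b → dl (a + b) b = 1 := by decide
    exact f _ _ hx0 hy0 hxy

end Rk2

end Pool.Agent.ETCE
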